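import Pool.Agent.H883B.TaskExt
import Pool.Agent.H883B.TaskDirected
import Pool.Agent.H883B.TaskRestrict
import Pool.Agent.H883B.Quot
import Pool.Agent.H883B.InfOrder

/-!
# Closure properties of amenable groups
-/

set_option autoImplicit false

namespace Pool.Agent.X260.RA

open Pool.Agent.H883B

universe u v

theorem am_surj {G : Type u} {H : Type v} [Group G] [Group H] (f : G →* H)
    (hf : Function.Surjective f) (h : IsAmenable G) : IsAmenable H := by
  obtain ⟨m, h0, h1, h2, h3⟩ := h
  refine ⟨fun A => m (f ⁻¹' A), fun A => h0 _, h1, ?_, ?_⟩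
  · intro A B hAB
    show m (f ⁻¹' (A ∪ B)) = m (f ⁻¹' A) + m (f ⁻¹' B)
    rw [Set.preimage_union]
    exact h2 _ _ (hAB.preimage f)
  · intro g A
    obtain ⟨g, rfl⟩ := hf g
    show m (f ⁻¹' ((fun x => f g * x) '' A)) = m (f ⁻¹' A)
    rw [← h3 g (f ⁻¹' A)]
    congr 1
    ext z
    constructor
    · rintro ⟨x, hx, hz⟩
      refine ⟨g⁻¹ * z, ?_, by group⟩
      rw [Set.mem_preimage, map_mul, map_inv, ← hz]
      simpa using hx
    · rintro ⟨x, hx, rfl⟩
      exact ⟨f x, hx, by simp⟩

theorem am_sub {G : Type u} [Group G] (H : Subgroup G) (h : IsAmenable G) : IsAmenable H := by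
  obtain ⟨m, h0, h1, h2, h3⟩ := h
  have := taskRestrict G (H : Set G) m h0 h1 h2 (fun g _ A => h3 g A)
  rwa [Subgroup.closure_eq] at this

theorem am_inj {G : Type u} {H : Type v} [Group G] [Group H] (f : G →* H)
    (hf : Function.Injective f) (h : IsAmenable H) : IsAmenable G := by
  have h1 := am_sub f.range h
  let e := MonoidHom.ofInjective hf
  exact am_surj e.symm.toMonoidHom e.symm.surjective h1

theorem am_ext {G : Type u} {H : Type v} [Group G] [Group H] (f : G →* H)
    (hk : IsAmenable f.ker) (h : IsAmenable H) : IsAmenable G := by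
  refine taskExt G f.ker hk ?_
  exact am_inj (QuotientGroup.kerLift f) (QuotientGroup.kerLift_injective f) h

theorem am_top {G : Type u} [Group G] (h : IsAmenable (⊤ : Subgroup G)) : IsAmenable G :=
  am_surj (Subgroup.subtype _) (fun g => ⟨⟨g, Subgroup.mem_top g⟩, rfl⟩) h

theorem am_finite {G : Type u} [Group G] [Finite G] : IsAmenable G := by
  refine ⟨fun A => (A.ncard : ℝ) / Nat.card G, fun A => by positivity, ?_, ?_, ?_⟩
  · show ((Set.univ : Set G).ncard : ℝ) / Nat.card G = 1
    rw [Set.ncard_univ]
    exact div_self (by exact_mod_cast Nat.card_pos.ne')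
  · intro A B hAB
    show ((A ∪ B).ncard : ℝ) / Nat.card G = (A.ncard : ℝ) / Nat.card G + (B.ncard : ℝ) / Nat.card G
    rw [Set.ncard_union_eq hAB (Set.toFinite _) (Set.toFinite _)]
    push_cast
    ring
  · intro g A
    show (((fun x => g * x) '' A).ncard : ℝ) / Nat.card G = (A.ncard : ℝ) / Nat.card G
    rw [Set.ncard_image_of_injective _ (mul_right_injective g)]

theorem am_directed {G : Type u} [Group G] {ι : Type*} [Nonempty ι] (H : ι → Subgroup G)
    (hd : Directed (· ≤ ·) H) (ha : ∀ i, IsAmenable (H i)) (hc : ∀ g, ∃ i, g ∈ H i) :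
    IsAmenable G := by
  have h1 := taskDirected taskRestrict G (Set.range H) (Set.range_nonempty H)
    (directedOn_range.2 hd) (by rintro _ ⟨i, rfl⟩; exact ha i)
  have h2 : sSup (Set.range H) = (⊤ : Subgroup G) := by
    rw [eq_top_iff]
    intro g _
    obtain ⟨i, hi⟩ := hc g
    exact (le_sSup (Set.mem_range_self i) : H i ≤ _) hi
  rw [h2] at h1
  exact am_top h1

theorem am_int : IsAmenable (Multiplicative ℤ) := by
  classical
  obtain ⟨m, h0, h1, h2, h3⟩ := InfOrder.mean_of_folner (G := Multiplicative ℤ)
    {Multiplicative.ofAdd 1} (by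
      intro S k
      refine ⟨(Finset.range (k + 1)).image (fun i : ℕ => Multiplicative.ofAdd (i : ℤ)), ?_, ?_⟩
      · exact ⟨_, Finset.mem_image_of_mem _ (Finset.mem_range.2 (Nat.succ_pos k))⟩
      · set X := (Finset.range (k + 1)).image (fun i : ℕ => Multiplicative.ofAdd (i : ℤ)) with hX
        have hcard : X.card = k + 1 := by
          rw [hX, Finset.card_image_of_injective, Finset.card_range]
          intro a b hab
          have : (a : ℤ) = b := Multiplicative.ofAdd.injective hab
          exact_mod_cast this
        have hb : ∀ s ∈ S, ((X.image fun x => (s : Multiplicative ℤ) * x) \ X).card ≤ 1 := by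
          rintro ⟨s, rfl⟩ -
          refine Finset.card_le_one.2 ?_
          have key : ∀ a ∈ (X.image fun x => (Multiplicative.ofAdd (1 : ℤ)) * x) \ X,
              a = Multiplicative.ofAdd ((k : ℤ) + 1) := by
            intro a ha
            rw [Finset.mem_sdiff, Finset.mem_image] at ha
            obtain ⟨⟨x, hx, rfl⟩, hn⟩ := ha
            rw [hX, Finset.mem_image] at hx
            obtain ⟨i, hi, rfl⟩ := hx
            rw [Finset.mem_range] at hi
            by_cases hik : i + 1 < k + 1
            · exfalso
              apply hn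
              rw [hX, Finset.mem_image]
              refine ⟨i + 1, Finset.mem_range.2 hik, ?_⟩
              rw [← ofAdd_add]
              congr 1
              push_cast
              ring
            · have : i = k := by omega
              rw [this, ← ofAdd_add, add_comm]
          intro a ha b hb
          rw [key a ha, key b hb]
        have hS : S.card ≤ 1 := by
          refine Finset.card_le_one.2 ?_
          rintro ⟨a, rfl⟩ - ⟨b, rfl⟩ -
          rfl
        have hsum : ∑ s ∈ S, ((X.image fun x => (s : Multiplicative ℤ) * x) \ X).card ≤ 1 :=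
          (Finset.sum_le_card_nsmul _ _ 1 hb).trans (by simpa using hS)
        rw [hcard]
        calc (k + 1) * ∑ s ∈ S, ((X.image fun x => (s : Multiplicative ℤ) * x) \ X).card
            ≤ (k + 1) * 1 := Nat.mul_le_mul_left _ hsum
          _ = k + 1 := mul_one _)
  have h4 := taskRestrict (Multiplicative ℤ) {Multiplicative.ofAdd 1} m h0 h1 h2 h3
  have h5 : Subgroup.closure {Multiplicative.ofAdd (1 : ℤ)} = ⊤ := by
    rw [eq_top_iff]
    intro x _
    rw [Subgroup.mem_closure_singleton]
    exact ⟨x.toAdd, by
      rw [← ofAdd_zsmul]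
      simp⟩
  rw [h5] at h4
  exact am_top h4

theorem am_prod {G : Type u} {H : Type v} [Group G] [Group H] (hG : IsAmenable G)
    (hH : IsAmenable H) : IsAmenable (G × H) := by
  refine am_ext (MonoidHom.fst G H) ?_ hG
  refine am_inj ((MonoidHom.snd G H).comp (Subgroup.subtype _)) ?_ hH
  rintro ⟨⟨a, b⟩, hab⟩ ⟨⟨a', b'⟩, hab'⟩ h
  have h1 : a = 1 := hab
  have h2 : a' = 1 := hab'
  have h3 : b = b' := h
  subst h1 h2 h3
  rfl

/-- functions with support in `s` -/
def supp {X : Type u} {P : Type v} [Group P] (s : Finset X) : Subgroup (X → P) where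
  carrier := {φ | ∀ x, x ∉ s → φ x = 1}
  one_mem' _ _ := rfl
  mul_mem' {a b} ha hb x hx := by
    show a x * b x = 1
    rw [ha x hx, hb x hx, mul_one]
  inv_mem' {a} ha x hx := by
    show (a x)⁻¹ = 1
    rw [ha x hx, inv_one]

theorem am_supp {X : Type u} {P : Type v} [Group P] (hP : IsAmenable P) (s : Finset X) :
    IsAmenable (supp (P := P) s) := by
  classical
  induction s using Finset.induction_on with
  | empty =>
    have : Subsingleton (supp (P := P) (∅ : Finset X)) := ⟨by
      rintro ⟨a, ha⟩ ⟨b, hb⟩
      apply Subtype.ext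
      funext x
      exact (ha x (by simp)).trans (hb x (by simp)).symm⟩
    exact am_finite
  | insert a s has ih =>
    let f : supp (P := P) (insert a s) →* P :=
      (Pi.evalMonoidHom (fun _ : X => P) a).comp (Subgroup.subtype _)
    refine am_ext f ?_ hP
    let g : f.ker →* supp (P := P) s :=
      ((Subgroup.subtype _).comp (Subgroup.subtype _)).codRestrict _ (by
        rintro ⟨⟨φ, hφ⟩, hk⟩ x hx
        have hk : φ a = 1 := hk
        show φ x = 1
        by_cases hxa : x = a
        · rw [hxa, hk]
        · exact hφ x (by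
            rw [Finset.mem_insert]
            rintro (h | h)
            · exact hxa h
            · exact hx h))
    refine am_inj g ?_ ih
    intro x y hxy
    have h1 : ((g x : X → P)) = (g y : X → P) := by rw [hxy]
    exact Subtype.ext (Subtype.ext h1)

theorem am_pi {X : Type u} {P : Type v} [Group P] [Finite X] (hP : IsAmenable P) :
    IsAmenable (X → P) := by
  have := Fintype.ofFinite X
  refine am_inj (MonoidHom.codRestrict (MonoidHom.id (X → P)) (supp (P := P) (Finset.univ : Finset X))
    (fun φ x hx => absurd (Finset.mem_univ x) hx)) ?_ (am_supp hP _)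
  intro a b hab
  exact congrArg Subtype.val hab

/-- functions which factor through the functions in `E` -/
def fac {I : Type u} {S : Type v} [Group S] (E : Finset (I → S)) : Subgroup (I → S) where
  carrier := {φ | ∀ a b, (∀ ψ ∈ E, ψ a = ψ b) → φ a = φ b}
  one_mem' _ _ _ := rfl
  mul_mem' {x y} hx hy a b h := by
    show x a * y a = x b * y b
    rw [hx a b h, hy a b h]
  inv_mem' {x} hx a b h := by
    show (x a)⁻¹ = (x b)⁻¹
    rw [hx a b h]

/-- powers of finite groups are amenable -/
theorem am_pow {I : Type u} {S : Type v} [Group S] [Finite S] : IsAmenable (I → S) := by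
  classical
  refine am_directed (fun E : Finset (I → S) => fac E) ?_ ?_ ?_
  · refine Monotone.directed_le ?_
    intro E E' h φ hφ a b hab
    exact hφ a b fun ψ hψ => hab ψ (h hψ)
  · intro E
    let g : fac (S := S) E → ((E → S) → S) := fun φ l =>
      if h : ∃ a, ∀ ψ : E, (ψ : I → S) a = l ψ then (φ : I → S) h.choose else 1
    have hg : Function.Injective g := by
      rintro ⟨x, hx⟩ ⟨y, hy⟩ hxy
      apply Subtype.ext
      funext a
      have h1 := congrFun hxy (fun ψ => (ψ : I → S) a)
      have h2 : ∃ b, ∀ ψ : E, (ψ : I → S) b = (ψ : I → S) a := ⟨a, fun _ => rfl⟩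
      simp only [g, dif_pos h2] at h1
      have h3 := h2.choose_spec
      rw [hx _ a (fun ψ hψ => h3 ⟨ψ, hψ⟩), hy _ a (fun ψ hψ => h3 ⟨ψ, hψ⟩)] at h1
      exact h1
    have : Finite (fac (S := S) E) := Finite.of_injective g hg
    exact am_finite
  · intro φ
    exact ⟨{φ}, fun a b h => h φ (Finset.mem_singleton_self φ)⟩

end Pool.Agent.X260.RA
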