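import Pool.Agent.X260.RA.Mn

/-!
# Conjugating elements inside amenable overgroups
-/

set_option autoImplicit false

namespace Pool.Agent.X260.RA

open Pool.Agent.H883B Pool.Agent.X260.VA

universe u

/-! ### finitely supported functions -/

/-- finitely supported functions -/
def FS (X : Type*) (P : Type*) [Group P] : Subgroup (X → P) where
  carrier := {φ | ∃ s : Finset X, φ ∈ supp s}
  one_mem' := ⟨∅, (supp ∅).one_mem⟩
  mul_mem' {a b} := by
    classical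
    rintro ⟨s, hs⟩ ⟨t, ht⟩
    refine ⟨s ∪ t, fun x hx => ?_⟩
    rw [Finset.mem_union, not_or] at hx
    show a x * b x = 1
    rw [hs x hx.1, ht x hx.2, mul_one]
  inv_mem' {a} := by
    rintro ⟨s, hs⟩
    exact ⟨s, (supp s).inv_mem hs⟩

theorem am_FS {X : Type*} {P : Type*} [Group P] (hP : IsAmenable P) : IsAmenable (FS X P) := by
  classical
  refine am_directed (fun s : Finset X => (supp (P := P) s).subgroupOf (FS X P)) ?_ ?_ ?_
  · refine Monotone.directed_le ?_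
    intro s t h φ hφ x hx
    exact hφ x fun hxs => hx (h hxs)
  · intro s
    refine am_inj (((FS X P).subtype.comp (Subgroup.subtype _)).codRestrict (supp (P := P) s)
      (fun φ => φ.2)) ?_ (am_supp hP s)
    intro a b hab
    have h1 := congrArg (fun z : supp (P := P) s => (z : X → P)) hab
    exact Subtype.ext (Subtype.ext h1)
  · rintro ⟨φ, s, hs⟩
    exact ⟨s, hs⟩

/-! ### the group of almost constant functions -/

section LL

variable {P : Type*} [Group P] (W₁ W₂ : Multiplicative ℤ →* P) (FP : P →* Multiplicative ℤ) (c : ℕ)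

theorem inv_shift {p : Equiv.Perm ℤ} {j : ℤ} (h : ∀ k, p k = k + j) (k : ℤ) : p⁻¹ k = k - j := by
  rw [Equiv.Perm.inv_eq_iff_eq, h]
  ring

/-- almost constant functions, extended by shifts -/
def LL : Subgroup (Mn ℤ P) where
  carrier := {x | (∃ j : ℤ, ∀ k, x.p k = k + j) ∧ ∃ m : Multiplicative ℤ,
    (∃ R : ℤ, ∀ k, R ≤ k → x.f k = W₁ m) ∧ (∃ R : ℤ, ∀ k, k ≤ R → x.f k = W₂ m) ∧
    ∀ k, FP (x.f k) = m ^ c}
  one_mem' := ⟨⟨0, fun k => by simp⟩, 1, ⟨0, fun _ _ => by simp⟩, ⟨0, fun _ _ => by simp⟩,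
    fun k => by simp⟩
  mul_mem' {x y} := by
    rintro ⟨⟨j, hj⟩, m, ⟨R₁, h₁⟩, ⟨R₂, h₂⟩, h₃⟩ ⟨⟨j', hj'⟩, m', ⟨R₁', h₁'⟩, ⟨R₂', h₂'⟩, h₃'⟩
    refine ⟨⟨j + j', fun k => ?_⟩, m * m', ⟨max R₁' (R₁ - j'), fun k hk => ?_⟩,
      ⟨min R₂' (R₂ - j'), fun k hk => ?_⟩, fun k => ?_⟩
    · show x.p (y.p k) = _
      rw [hj', hj]
      ring
    · rw [Mn.mul_f, hj', h₁ _ (by have := le_max_right R₁' (R₁ - j'); omega),
        h₁' _ ((le_max_left _ _).trans hk), map_mul]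
    · rw [Mn.mul_f, hj', h₂ _ (by have := min_le_right R₂' (R₂ - j'); omega),
        h₂' _ (hk.trans (min_le_left _ _)), map_mul]
    · rw [Mn.mul_f, map_mul, h₃, h₃', mul_pow]
  inv_mem' {x} := by
    rintro ⟨⟨j, hj⟩, m, ⟨R₁, h₁⟩, ⟨R₂, h₂⟩, h₃⟩
    have hi := inv_shift hj
    refine ⟨⟨-j, fun k => ?_⟩, m⁻¹, ⟨R₁ + j, fun k hk => ?_⟩, ⟨R₂ + j, fun k hk => ?_⟩,
      fun k => ?_⟩
    · show x.p⁻¹ k = _
      rw [hi]
      ring
    · rw [Mn.inv_f, hi, h₁ _ (by omega), map_inv]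
    · rw [Mn.inv_f, hi, h₂ _ (by omega), map_inv]
    · rw [Mn.inv_f, map_inv, h₃, inv_pow]

theorem ll_const (x : LL W₁ W₂ FP c) (k : ℤ) : FP ((x : Mn ℤ P).f k) = FP ((x : Mn ℤ P).f 0) := by
  obtain ⟨x, -, m, -, -, h⟩ := x
  show FP (x.f k) = FP (x.f 0)
  rw [h, h]

/-- the functional -/
def fl : LL W₁ W₂ FP c →* Multiplicative ℤ where
  toFun x := FP ((x : Mn ℤ P).f 0)
  map_one' := by simp
  map_mul' x y := by
    show FP ((x : Mn ℤ P).f ((y : Mn ℤ P).p 0) * (y : Mn ℤ P).f 0) = _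
    rw [map_mul, ll_const]

/-- the shift -/
def sh : LL W₁ W₂ FP c →* Multiplicative ℤ where
  toFun x := Multiplicative.ofAdd ((x : Mn ℤ P).p 0)
  map_one' := rfl
  map_mul' x y := by
    obtain ⟨x, ⟨j, hj⟩, hx⟩ := x
    obtain ⟨y, ⟨j', hj'⟩, hy⟩ := y
    show Multiplicative.ofAdd (x.p (y.p 0)) = Multiplicative.ofAdd (x.p 0) *
      Multiplicative.ofAdd (y.p 0)
    rw [← ofAdd_add, hj, hj, hj']
    congr 1
    ring

theorem am_LL (hc : 0 < c) (hP : IsAmenable P) : IsAmenable (LL W₁ W₂ FP c) := by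
  refine am_ext ((sh W₁ W₂ FP c).prod (fl W₁ W₂ FP c)) ?_ (am_prod am_int am_int)
  have key : ∀ x : ((sh W₁ W₂ FP c).prod (fl W₁ W₂ FP c)).ker,
      ((x : LL W₁ W₂ FP c) : Mn ℤ P).p = 1 ∧ ((x : LL W₁ W₂ FP c) : Mn ℤ P).f ∈ FS ℤ P := by
    rintro ⟨⟨x, ⟨j, hj⟩, m, ⟨R₁, h₁⟩, ⟨R₂, h₂⟩, h₃⟩, hx⟩
    have hx1 : x.p 0 = 0 := congrArg Prod.fst hx
    have hx2 : FP (x.f 0) = 1 := congrArg Prod.snd hx
    have hj0 : j = 0 := by
      have := hj 0
      rw [hx1] at this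
      omega
    have hm : m = 1 := by
      rw [h₃] at hx2
      have h4 : c • m.toAdd = 0 := hx2
      rw [nsmul_eq_mul] at h4
      have h5 : (c : ℤ) ≠ 0 := by exact_mod_cast hc.ne'
      exact (mul_eq_zero.1 h4).resolve_left h5
    refine ⟨?_, ?_⟩
    · show x.p = 1
      ext k
      rw [hj, hj0]
      simp
    · refine ⟨Finset.Icc R₂ R₁, fun k hk => ?_⟩
      show x.f k = 1
      rw [Finset.mem_Icc, not_and_or, not_le, not_le] at hk
      rcases hk with hk | hk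
      · rw [h₂ k hk.le, hm, map_one]
      · rw [h₁ k hk.le, hm, map_one]
  let θ : ((sh W₁ W₂ FP c).prod (fl W₁ W₂ FP c)).ker →* FS ℤ P :=
    { toFun := fun x => ⟨_, (key x).2⟩
      map_one' := rfl
      map_mul' := fun x y => by
        apply Subtype.ext
        funext k
        have hy := (key y).1
        show ((x : LL W₁ W₂ FP c) : Mn ℤ P).f (((y : LL W₁ W₂ FP c) : Mn ℤ P).p k) *
          ((y : LL W₁ W₂ FP c) : Mn ℤ P).f k = ((x : LL W₁ W₂ FP c) : Mn ℤ P).f k *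
          ((y : LL W₁ W₂ FP c) : Mn ℤ P).f k
        rw [hy]
        rfl }
  refine am_inj θ ?_ (am_FS hP)
  intro x y hxy
  apply Subtype.ext
  apply Subtype.ext
  apply Mn.ext
  · rw [(key x).1, (key y).1]
  · exact congrArg Subtype.val hxy

variable {N : Type*} [Group N] (D : N →* P) (F : N →* Multiplicative ℤ)
  (e₀ : ∀ n, FP (D n) = F n ^ c) (e₁ : ∀ m, FP (W₁ m) = m ^ c) (e₂ : ∀ m, FP (W₂ m) = m ^ c)

/-- the functions -/
def ifun (n : N) (k : ℤ) : P := if k = 0 then D n else if 0 < k then W₁ (F n) else W₂ (F n)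

include e₀ e₁ e₂ in
theorem iota_mem (n : N) : (⟨1, ifun W₁ W₂ D F n⟩ : Mn ℤ P) ∈ LL W₁ W₂ FP c := by
  refine ⟨⟨0, fun k => by simp⟩, F n, ⟨1, fun k hk => ?_⟩, ⟨-1, fun k hk => ?_⟩, fun k => ?_⟩
  · show ifun W₁ W₂ D F n k = _
    rw [ifun, if_neg (by omega), if_pos (by omega)]
  · show ifun W₁ W₂ D F n k = _
    rw [ifun, if_neg (by omega), if_neg (by omega)]
  · show FP (ifun W₁ W₂ D F n k) = _
    unfold ifun
    split_ifs
    · exact e₀ n
    · exact e₁ _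
    · exact e₂ _

/-- the embedding -/
def iota : N →* LL W₁ W₂ FP c where
  toFun n := ⟨_, iota_mem W₁ W₂ FP c D F e₀ e₁ e₂ n⟩
  map_one' := by
    apply Subtype.ext
    apply Mn.ext
    · rfl
    · funext k
      show ifun W₁ W₂ D F 1 k = 1
      simp [ifun]
  map_mul' x y := by
    apply Subtype.ext
    apply Mn.ext
    · rfl
    · funext k
      show ifun W₁ W₂ D F (x * y) k = ifun W₁ W₂ D F x k * ifun W₁ W₂ D F y k
      unfold ifun
      split_ifs <;> simp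

theorem iota_inj (hD : Function.Injective D) :
    Function.Injective (iota W₁ W₂ FP c D F e₀ e₁ e₂) := by
  intro x y h
  have h1 : ifun W₁ W₂ D F x 0 = ifun W₁ W₂ D F y 0 := by
    have := congrArg (fun z : LL W₁ W₂ FP c => (z : Mn ℤ P).f 0) h
    exact this
  simp only [ifun, if_pos] at h1
  exact hD h1

theorem fl_iota (n : N) : fl W₁ W₂ FP c (iota W₁ W₂ FP c D F e₀ e₁ e₂ n) = F n ^ c := by
  show FP (ifun W₁ W₂ D F n 0) = _
  rw [ifun, if_pos rfl, e₀]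

theorem iota_conj (d₁ d₂ : N) (hF : F d₁ = F d₂) (w₁ : W₁ (F d₁) = D d₁) (w₂ : W₂ (F d₂) = D d₂) :
    ∃ t : LL W₁ W₂ FP c, t * iota W₁ W₂ FP c D F e₀ e₁ e₂ d₁ * t⁻¹ =
      iota W₁ W₂ FP c D F e₀ e₁ e₂ d₂ := by
  refine ⟨⟨⟨Equiv.addRight (1 : ℤ), fun _ => 1⟩, ⟨1, fun _ => rfl⟩, 1, ⟨0, fun _ _ => by simp⟩,
    ⟨0, fun _ _ => by simp⟩, fun k => by simp⟩, ?_⟩
  apply Subtype.ext
  apply Mn.ext
  · show Equiv.addRight (1 : ℤ) * 1 * (Equiv.addRight (1 : ℤ))⁻¹ = 1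
    group
  · funext k
    show (1 * ifun W₁ W₂ D F d₁ ((Equiv.addRight (1 : ℤ))⁻¹ k)) * (1 : P)⁻¹ = ifun W₁ W₂ D F d₂ k
    rw [inv_shift (j := 1) (fun _ => rfl) k, one_mul, inv_one, mul_one]
    unfold ifun
    by_cases h1 : k - 1 = 0
    · rw [if_pos h1, if_neg (by omega), if_pos (by omega), ← w₁, hF]
    · rw [if_neg h1]
      by_cases h2 : 0 < k - 1
      · rw [if_pos h2, if_neg (by omega), if_pos (by omega), hF]
      · rw [if_neg h2, hF, w₂]
        by_cases h3 : k = 0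
        · rw [if_pos h3]
        · rw [if_neg h3, if_neg (by omega)]

end LL

/-! ### roots -/

section root

variable {N : Type*} [Group N] (κ : ℕ) (hκ : 0 < κ) (d : N)

/-- the multiples of `κ` -/
abbrev Zk : Subgroup (Multiplicative ℤ) := Subgroup.zpowers (Multiplicative.ofAdd (κ : ℤ))

theorem mem_Zk (x : Multiplicative ℤ) : x ∈ Zk κ ↔ (κ : ℤ) ∣ x.toAdd := by
  rw [Subgroup.mem_zpowers_iff]
  constructor
  · rintro ⟨k, rfl⟩
    exact ⟨k, by
      show k • (κ : ℤ) = _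
      rw [smul_eq_mul]
      ring⟩
  · rintro ⟨k, hk⟩
    refine ⟨k, ?_⟩
    show k • (κ : ℤ) = x.toAdd
    rw [hk, smul_eq_mul]
    ring

/-- the hom sending `κ` to `d` -/
def Ad : Zk κ →* N where
  toFun n := d ^ ((n : Multiplicative ℤ).toAdd / κ)
  map_one' := by simp
  map_mul' x y := by
    rw [← zpow_add]
    congr 1
    have h1 := (mem_Zk κ x).1 x.2
    show ((x : Multiplicative ℤ).toAdd + (y : Multiplicative ℤ).toAdd) / (κ : ℤ) = _
    rw [Int.add_ediv_of_dvd_left h1]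

theorem Zk_fin (hκ : 0 < κ) : Finite (Multiplicative ℤ ⧸ Zk κ) := by
  have hfi : (Zk κ).FiniteIndex := by
    constructor
    have h1 : (AddSubgroup.zmultiples (κ : ℤ)).index ≠ 0 := by
      rw [Int.index_zmultiples]
      simpa using hκ.ne'
    exact h1
  infer_instance

/-- the one-parameter group with `κ ↦ d` -/
noncomputable def Wd : Multiplicative ℤ →* Mn (Multiplicative ℤ ⧸ Zk κ) N :=
  ind (Zk κ) (fun q => q.out) (out_bij (Zk κ))
    ((Equiv.prodPUnit _).symm : (Multiplicative ℤ ⧸ Zk κ) ≃ (Multiplicative ℤ ⧸ Zk κ) × Unit)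
    (fun _ => Ad κ d)

include hκ in
theorem Wd_k : Wd κ d (Multiplicative.ofAdd (κ : ℤ)) = Mn.diag d := by
  have hm : Multiplicative.ofAdd (κ : ℤ) ∈ Zk κ := Subgroup.mem_zpowers _
  have key := fun x => ac_mem (Zk κ) (fun q : Multiplicative ℤ ⧸ Zk κ => q.out) (out_bij (Zk κ)) _ hm x
  apply Mn.ext
  · ext x
    show ac (Zk κ) (fun q : Multiplicative ℤ ⧸ Zk κ => q.out) (out_bij (Zk κ)) _ x = x
    exact (key x).1
  · funext x
    show Ad κ d (cc (Zk κ) (fun q : Multiplicative ℤ ⧸ Zk κ => q.out) (out_bij (Zk κ)) _ x) = d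
    rw [(key x).2]
    show d ^ (((x.out)⁻¹ * Multiplicative.ofAdd (κ : ℤ) * x.out).toAdd / (κ : ℤ)) = d
    rw [mul_comm, ← mul_assoc, mul_inv_cancel, one_mul, toAdd_ofAdd, Int.ediv_self, zpow_one]
    exact_mod_cast hκ.ne'

/-- the sum functional -/
def FP {X : Type*} [Fintype X] (F : N →* Multiplicative ℤ) : Mn X N →* Multiplicative ℤ where
  toFun x := ∏ t, F (x.f t)
  map_one' := by simp
  map_mul' x y := by
    simp only [Mn.mul_f, map_mul]
    rw [Finset.prod_mul_distrib, Equiv.prod_comp y.p (fun t => F (x.f t))]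

theorem FP_diag {X : Type*} [Fintype X] (F : N →* Multiplicative ℤ) (n : N) :
    FP (X := X) F (Mn.diag n) = F n ^ (Fintype.card X) := by
  show ∏ _t : X, F n = _
  rw [Finset.prod_const, Finset.card_univ]

include hκ in
theorem FP_Wd [Fintype (Multiplicative ℤ ⧸ Zk κ)] (F : N →* Multiplicative ℤ)
    (hF : F d = Multiplicative.ofAdd (κ : ℤ)) (m : Multiplicative ℤ) :
    FP F (Wd κ d m) = m ^ (Fintype.card (Multiplicative ℤ ⧸ Zk κ)) := by
  set c := Fintype.card (Multiplicative ℤ ⧸ Zk κ)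
  let h : Multiplicative ℤ →* Multiplicative ℤ := (FP F).comp (Wd κ d)
  have h1 : h (Multiplicative.ofAdd (κ : ℤ)) = Multiplicative.ofAdd (κ : ℤ) ^ c := by
    show FP F (Wd κ d _) = _
    rw [Wd_k κ hκ, FP_diag, hF]
  have hgen : ∀ x : Multiplicative ℤ, x = Multiplicative.ofAdd (1 : ℤ) ^ x.toAdd := by
    intro x
    rw [← ofAdd_zsmul]
    simp
  have h2 : h (Multiplicative.ofAdd (1 : ℤ)) = Multiplicative.ofAdd (1 : ℤ) ^ c := by
    have h3 : h (Multiplicative.ofAdd (1 : ℤ)) ^ κ = (Multiplicative.ofAdd (1 : ℤ) ^ c) ^ κ := by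
      rw [← map_pow, ← pow_mul, mul_comm c κ, pow_mul]
      have : Multiplicative.ofAdd (1 : ℤ) ^ κ = Multiplicative.ofAdd (κ : ℤ) := by
        rw [← ofAdd_nsmul]
        simp
      rw [this, h1]
    have h4 : κ • (h (Multiplicative.ofAdd (1 : ℤ))).toAdd =
      κ • (Multiplicative.ofAdd (1 : ℤ) ^ c).toAdd := h3
    rw [nsmul_eq_mul, nsmul_eq_mul] at h4
    have h5 : (κ : ℤ) ≠ 0 := by exact_mod_cast hκ.ne'
    have h6 : (h (Multiplicative.ofAdd (1 : ℤ))).toAdd = (Multiplicative.ofAdd (1 : ℤ) ^ c).toAdd :=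
      mul_left_cancel₀ h5 h4
    exact h6
  show h m = m ^ c
  conv_lhs => rw [hgen m, map_zpow, h2]
  conv_rhs => rw [hgen m]
  rw [← zpow_natCast, ← zpow_natCast, ← zpow_mul, ← zpow_mul, mul_comm]

end root

/-- one pair of elements becomes conjugate -/
theorem conj_pos {N : Type u} [Group N] (hN : IsAmenable N) (F : N →* Multiplicative ℤ)
    (d₁ d₂ : N) (κ : ℕ) (hκ : 0 < κ) (h₁ : F d₁ = Multiplicative.ofAdd (κ : ℤ))
    (h₂ : F d₂ = Multiplicative.ofAdd (κ : ℤ)) :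
    ∃ (L : Type u) (_ : Group L) (ι : N →* L) (F' : L →* Multiplicative ℤ) (c : ℕ),
      IsAmenable L ∧ Function.Injective ι ∧ 0 < c ∧ (∀ n, F' (ι n) = F n ^ c) ∧
      ∃ t : L, t * ι d₁ * t⁻¹ = ι d₂ := by
  classical
  have hfin := Zk_fin κ hκ
  have := Fintype.ofFinite (Multiplicative ℤ ⧸ Zk κ)
  set c := Fintype.card (Multiplicative ℤ ⧸ Zk κ) with hc
  have hc0 : 0 < c := Fintype.card_pos
  let D : N →* Mn (Multiplicative ℤ ⧸ Zk κ) N := Mn.diag
  have e₀ : ∀ n, FP F (D n) = F n ^ c := fun n => FP_diag F n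
  have e₁ : ∀ m, FP F (Wd κ d₁ m) = m ^ c := FP_Wd κ hκ d₁ F h₁
  have e₂ : ∀ m, FP F (Wd κ d₂ m) = m ^ c := FP_Wd κ hκ d₂ F h₂
  refine ⟨LL (Wd κ d₁) (Wd κ d₂) (FP F) c, inferInstance,
    iota (Wd κ d₁) (Wd κ d₂) (FP F) c D F e₀ e₁ e₂, fl (Wd κ d₁) (Wd κ d₂) (FP F) c, c,
    am_LL _ _ _ _ hc0 (am_mn hN), ?_, hc0, fl_iota _ _ _ _ _ _ _ _ _, ?_⟩
  · refine iota_inj _ _ _ _ _ _ _ _ _ ?_
    intro a b hab
    have h3 := congrArg (fun z : Mn (Multiplicative ℤ ⧸ Zk κ) N => z.f (QuotientGroup.mk 1)) hab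
    exact h3
  · refine iota_conj _ _ _ _ _ _ _ _ _ d₁ d₂ (h₁.trans h₂.symm) ?_ ?_
    · rw [h₁, Wd_k κ hκ]
    · rw [h₂, Wd_k κ hκ]

theorem conj_one {N : Type u} [Group N] (hN : IsAmenable N) (F : N →* Multiplicative ℤ)
    (d₁ d₂ : N) (h₁ : F d₁ = F d₂) (h₂ : F d₁ ≠ 1) :
    ∃ (L : Type u) (_ : Group L) (ι : N →* L) (F' : L →* Multiplicative ℤ) (c : ℕ),
      IsAmenable L ∧ Function.Injective ι ∧ 0 < c ∧ (∀ n, F' (ι n) = F n ^ c) ∧
      ∃ t : L, t * ι d₁ * t⁻¹ = ι d₂ := by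
  have h3 : (F d₁).toAdd ≠ 0 := h₂
  rcases lt_or_gt_of_ne h3 with h | h
  · let F₁ : N →* Multiplicative ℤ := F⁻¹
    obtain ⟨L, hL, ι, F', c, a1, a2, a3, a4, a5⟩ := conj_pos hN F₁ d₁ d₂ (F d₁).toAdd.natAbs
      (by omega)
      (by
        show -(F d₁).toAdd = (((F d₁).toAdd.natAbs : ℕ) : ℤ)
        omega)
      (by
        show -(F d₂).toAdd = (((F d₁).toAdd.natAbs : ℕ) : ℤ)
        rw [← h₁]
        omega)
    refine ⟨L, hL, ι, F'⁻¹, c, a1, a2, a3, ?_, a5⟩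
    intro n
    rw [MonoidHom.inv_apply, a4]
    show ((F n)⁻¹ ^ c)⁻¹ = F n ^ c
    rw [inv_pow, inv_inv]
  · exact conj_pos hN F d₁ d₂ (F d₁).toAdd.natAbs (by omega)
      (by
        show (F d₁).toAdd = (((F d₁).toAdd.natAbs : ℕ) : ℤ)
        omega)
      (by
        show (F d₂).toAdd = (((F d₁).toAdd.natAbs : ℕ) : ℤ)
        rw [← h₁]
        omega)

theorem pow_ne_one_int {x : Multiplicative ℤ} (hx : x ≠ 1) {c : ℕ} (hc : 0 < c) : x ^ c ≠ 1 := by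
  intro h
  apply hx
  have h4 : c • x.toAdd = 0 := h
  rw [nsmul_eq_mul] at h4
  have h5 : (c : ℤ) ≠ 0 := by exact_mod_cast hc.ne'
  exact (mul_eq_zero.1 h4).resolve_left h5

/-- finitely many pairs of elements become conjugate -/
theorem conj_many (l : ℕ) : ∀ {N : Type u} [Group N] (_ : IsAmenable N)
    (F : N →* Multiplicative ℤ) (a b : Fin l → N) (_ : ∀ i, F (a i) = F (b i))
    (_ : ∀ i, F (a i) ≠ 1),
    ∃ (L : Type u) (_ : Group L) (ι : N →* L), IsAmenable L ∧ Function.Injective ι ∧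
      ∀ i, ∃ t : L, t * ι (a i) * t⁻¹ = ι (b i) := by
  induction l with
  | zero =>
    intro N _ hN F a b h1 h2
    exact ⟨N, inferInstance, MonoidHom.id N, hN, Function.injective_id, fun i => i.elim0⟩
  | succ l ih =>
    intro N _ hN F a b h1 h2
    obtain ⟨L, hL, ι, F', c, a1, a2, a3, a4, t, ht⟩ := conj_one hN F (a 0) (b 0) (h1 0) (h2 0)
    obtain ⟨L', hL', ι', b1, b2, b3⟩ := ih a1 F' (fun i => ι (a i.succ)) (fun i => ι (b i.succ))
      (fun i => by rw [a4, a4, h1]) (fun i => by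
        rw [a4]
        exact pow_ne_one_int (h2 _) a3)
    refine ⟨L', hL', ι'.comp ι, b1, b2.comp a2, ?_⟩
    intro i
    refine Fin.cases ?_ (fun i => ?_) i
    · refine ⟨ι' t, ?_⟩
      show ι' t * ι' (ι (a 0)) * (ι' t)⁻¹ = ι' (ι (b 0))
      rw [← ht]
      simp
    · exact b3 i

end Pool.Agent.X260.RA
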