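import Pool.Agent.X260.RA.Conj

/-!
# The data for the construction of amenable quotients
-/

set_option autoImplicit false
set_option linter.unusedSectionVars false

namespace Pool.Agent.X260.RA

open Pool.Agent.H883B Pool.Agent.X260.VA

universe u

/-! ### the target group -/

theorem lab {N₁ N₂ R₁ R₂ Y₁ Y₂ : Type u} [Group N₁] [Group N₂] [Group R₁] [Group R₂]
    [Finite Y₁] [Finite Y₂] (m₁ : IsAmenable R₁) (m₂ : IsAmenable R₂) (α₁ : N₁ →* R₁)
    (α₂ : N₂ →* R₂) (g₁ : R₁ →* Multiplicative ℤ) (g₂ : R₂ →* Multiplicative ℤ)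
    (c₁ : Y₁ → N₁) (c₂ : Y₂ → N₂) (hc₁ : ∀ y, g₁ (α₁ (c₁ y)) ≠ 1)
    (hc₂ : ∀ y, g₂ (α₂ (c₂ y)) ≠ 1) :
    ∃ (L : Type u) (_ : Group L) (A : Y₂ → N₁ →* L) (B : Y₁ → N₂ →* L) (U : Y₁ → Y₂ → L),
      IsAmenable L ∧ (∀ y₁ y₂, U y₁ y₂ * A y₂ (c₁ y₁) * (U y₁ y₂)⁻¹ = B y₁ (c₂ y₂)) ∧
      (∀ y n, A y n = 1 → α₁ n = 1) ∧ (∀ y n, B y n = 1 → α₂ n = 1) := by
  classical
  have := Fintype.ofFinite Y₁
  have := Fintype.ofFinite Y₂
  let k₁ : Y₁ → ℤ := fun y => (g₁ (α₁ (c₁ y))).toAdd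
  let k₂ : Y₂ → ℤ := fun y => (g₂ (α₂ (c₂ y))).toAdd
  let F₁ : (Y₂ → R₁) →* Multiplicative ℤ :=
    { toFun := fun m => ∏ y, g₁ (m y) ^ k₂ y
      map_one' := by simp
      map_mul' := fun a b => by
        simp only [Pi.mul_apply, map_mul, mul_zpow]
        rw [Finset.prod_mul_distrib] }
  let F₂ : (Y₁ → R₂) →* Multiplicative ℤ :=
    { toFun := fun m => ∏ y, g₂ (m y) ^ k₁ y
      map_one' := by simp
      map_mul' := fun a b => by
        simp only [Pi.mul_apply, map_mul, mul_zpow]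
        rw [Finset.prod_mul_distrib] }
  let F : (Y₂ → R₁) × (Y₁ → R₂) →* Multiplicative ℤ := MonoidHom.coprod F₁ F₂
  let A₀ : Y₂ → N₁ →* (Y₂ → R₁) × (Y₁ → R₂) := fun y =>
    (MonoidHom.inl _ _).comp ((MonoidHom.mulSingle (fun _ : Y₂ => R₁) y).comp α₁)
  let B₀ : Y₁ → N₂ →* (Y₂ → R₁) × (Y₁ → R₂) := fun y =>
    (MonoidHom.inr _ _).comp ((MonoidHom.mulSingle (fun _ : Y₁ => R₂) y).comp α₂)
  have hA₀ : ∀ y n, F (A₀ y n) = g₁ (α₁ n) ^ k₂ y := by
    intro y n
    show F₁ (Pi.mulSingle y (α₁ n)) * F₂ 1 = _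
    rw [map_one, mul_one]
    show ∏ y', g₁ (Pi.mulSingle (M := fun _ => R₁) y (α₁ n) y') ^ k₂ y' = _
    rw [Finset.prod_eq_single y]
    · rw [Pi.mulSingle_eq_same]
    · intro y' _ hy'
      rw [Pi.mulSingle_eq_of_ne hy', map_one, one_zpow]
    · intro h
      exact absurd (Finset.mem_univ y) h
  have hB₀ : ∀ y n, F (B₀ y n) = g₂ (α₂ n) ^ k₁ y := by
    intro y n
    show F₁ 1 * F₂ (Pi.mulSingle y (α₂ n)) = _
    rw [map_one, one_mul]
    show ∏ y', g₂ (Pi.mulSingle (M := fun _ => R₂) y (α₂ n) y') ^ k₁ y' = _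
    rw [Finset.prod_eq_single y]
    · rw [Pi.mulSingle_eq_same]
    · intro y' _ hy'
      rw [Pi.mulSingle_eq_of_ne hy', map_one, one_zpow]
    · intro h
      exact absurd (Finset.mem_univ y) h
  have hfin : Finite (Y₁ × Y₂) := inferInstance
  obtain ⟨l, ⟨e⟩⟩ := Finite.exists_equiv_fin (Y₁ × Y₂)
  have v₁ : ∀ y₁ y₂, (F (A₀ y₂ (c₁ y₁))).toAdd = k₂ y₂ * k₁ y₁ := by
    intro y₁ y₂
    rw [hA₀]
    show k₂ y₂ • k₁ y₁ = _
    rw [smul_eq_mul]
  have v₂ : ∀ y₁ y₂, (F (B₀ y₁ (c₂ y₂))).toAdd = k₁ y₁ * k₂ y₂ := by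
    intro y₁ y₂
    rw [hB₀]
    show k₁ y₁ • k₂ y₂ = _
    rw [smul_eq_mul]
  obtain ⟨L, hL, ι, b1, b2, b3⟩ := conj_many l (am_prod (am_pi m₁) (am_pi m₂)) F
    (fun j => A₀ (e.symm j).2 (c₁ (e.symm j).1)) (fun j => B₀ (e.symm j).1 (c₂ (e.symm j).2))
    (fun j => by
      have : (F (A₀ (e.symm j).2 (c₁ (e.symm j).1))).toAdd =
        (F (B₀ (e.symm j).1 (c₂ (e.symm j).2))).toAdd := by
        rw [v₁, v₂, mul_comm]
      exact this)
    (fun j => by
      have : (F (A₀ (e.symm j).2 (c₁ (e.symm j).1))).toAdd ≠ 0 := by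
        rw [v₁]
        exact mul_ne_zero (hc₂ _) (hc₁ _)
      exact this)
  choose t ht using b3
  refine ⟨L, hL, fun y => ι.comp (A₀ y), fun y => ι.comp (B₀ y), fun y₁ y₂ => t (e (y₁, y₂)),
    b1, ?_, ?_, ?_⟩
  · intro y₁ y₂
    have := ht (e (y₁, y₂))
    rw [Equiv.symm_apply_apply] at this
    exact this
  · intro y n h
    have h1 : A₀ y n = 1 := b2 (by rw [map_one]; exact h)
    have h2 : Pi.mulSingle (M := fun _ : Y₂ => R₁) y (α₁ n) = 1 := congrArg Prod.fst h1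
    have h3 := congrFun h2 y
    rw [Pi.mulSingle_eq_same] at h3
    exact h3
  · intro y n h
    have h1 : B₀ y n = 1 := b2 (by rw [map_one]; exact h)
    have h2 : Pi.mulSingle (M := fun _ : Y₁ => R₂) y (α₂ n) = 1 := congrArg Prod.snd h1
    have h3 := congrFun h2 y
    rw [Pi.mulSingle_eq_same] at h3
    exact h3

/-! ### generic functionals -/

theorem generic {n : ℕ} {Y : Type*} [Finite Y] (v : Y → Fin n → ℤ) (hv : ∀ y, v y ≠ 0) :
    ∃ a : Fin n → ℤ, ∀ y, ∑ k, a k * v y k ≠ 0 := by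
  classical
  have := Fintype.ofFinite Y
  let P : Y → Polynomial ℤ := fun y => ∑ k : Fin n, Polynomial.C (v y k) * Polynomial.X ^ (k : ℕ)
  have hP : ∀ y, P y ≠ 0 := by
    intro y h
    apply hv y
    funext k
    have h1 : (P y).coeff k = v y k := by
      simp only [P, Polynomial.finset_sum_coeff, Polynomial.coeff_C_mul, Polynomial.coeff_X_pow]
      rw [Finset.sum_eq_single k]
      · simp
      · intro b _ hb
        rw [if_neg (fun h => hb (Fin.ext h.symm)), mul_zero]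
      · intro h
        exact absurd (Finset.mem_univ k) h
    rw [← h1, h]
    simp
  by_contra hcon
  push Not at hcon
  have h0 : ∏ y, P y = 0 := by
    apply Polynomial.funext
    intro x
    obtain ⟨y, hy⟩ := hcon (fun k => x ^ (k : ℕ))
    rw [Polynomial.eval_prod, Polynomial.eval_zero]
    apply Finset.prod_eq_zero (Finset.mem_univ y)
    rw [← hy]
    simp only [P, Polynomial.eval_finset_sum, Polynomial.eval_mul, Polynomial.eval_C,
      Polynomial.eval_pow, Polynomial.eval_X]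
    exact Finset.sum_congr rfl fun k _ => mul_comm _ _
  obtain ⟨y, -, hy⟩ := Finset.prod_eq_zero_iff.1 h0
  exact hP y hy

/-! ### virtually abelian quotients -/

theorem fg_sub_comm {A : Type*} [CommGroup A] [hA : Group.FG A] (B : Subgroup A) : B.FG := by
  have h1 : AddGroup.FG (Additive A) := inferInstance
  have h2 : Module.Finite ℤ (Additive A) := Module.Finite.iff_addGroup_fg.2 h1
  have h3 : IsNoetherian ℤ (Additive A) := inferInstance
  have h4 : (AddSubgroup.toIntSubmodule (Subgroup.toAddSubgroup B)).FG := IsNoetherian.noetherian _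
  have h5 : (Subgroup.toAddSubgroup B).FG := by
    rw [Submodule.fg_iff_addSubgroup_fg] at h4
    simpa using h4
  exact (Subgroup.fg_iff_add_fg B).2 h5

/-- a group having a f.g. subgroup of finite index is f.g. -/
theorem fg_of_fg_finiteIndex {H : Type*} [Group H] (B : Subgroup H) (hB : B.FG)
    (hfi : B.FiniteIndex) : Group.FG H := by
  have : Finite (H ⧸ B) := inferInstance
  obtain ⟨S, hS⟩ := hB
  classical
  have hfin : (Set.range (fun q : H ⧸ B => q.out)).Finite := Set.finite_range _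
  rw [Group.fg_iff]
  refine ⟨(S : Set H) ∪ Set.range (fun q : H ⧸ B => q.out), ?_, S.finite_toSet.union hfin⟩
  rw [eq_top_iff]
  intro x _
  have h1 : ((x : H ⧸ B).out)⁻¹ * x ∈ B := by
    rw [← QuotientGroup.eq]
    simp
  have h2 : (x : H ⧸ B).out ∈ Subgroup.closure ((S : Set H) ∪ Set.range (fun q : H ⧸ B => q.out)) :=
    Subgroup.subset_closure (Or.inr ⟨_, rfl⟩)
  have h3 : ((x : H ⧸ B).out)⁻¹ * x ∈
      Subgroup.closure ((S : Set H) ∪ Set.range (fun q : H ⧸ B => q.out)) := by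
    have : B ≤ Subgroup.closure ((S : Set H) ∪ Set.range (fun q : H ⧸ B => q.out)) := by
      rw [← hS]
      exact Subgroup.closure_mono Set.subset_union_left
    exact this h1
  have := Subgroup.mul_mem _ h2 h3
  simpa using this

/-- subgroups of `Mn T ℤ` are finitely generated -/
theorem mn_fg {T : Type*} [Finite T] (E : Subgroup (Mn T (Multiplicative ℤ))) : Group.FG E := by
  have hfin : Finite (Equiv.Perm T) := inferInstance
  have hA : ((Mn.perm (T := T) (M := Multiplicative ℤ)).comp E.subtype).ker.FiniteIndex := inferInstance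
  refine fg_of_fg_finiteIndex ((Mn.perm (T := T) (M := Multiplicative ℤ)).comp E.subtype).ker ?_ hA
  let θ : ((Mn.perm (T := T) (M := Multiplicative ℤ)).comp E.subtype).ker →*
      Multiplicative (T → ℤ) :=
    { toFun := fun x => Multiplicative.ofAdd (fun t => (((x : E) : Mn T (Multiplicative ℤ)).f t).toAdd)
      map_one' := rfl
      map_mul' := fun x y => by
        have hy : ((y : E) : Mn T (Multiplicative ℤ)).p = 1 := y.2
        apply Multiplicative.toAdd.injective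
        funext t
        show (((x : E) : Mn T (Multiplicative ℤ)).f (((y : E) : Mn T (Multiplicative ℤ)).p t) *
          ((y : E) : Mn T (Multiplicative ℤ)).f t).toAdd = _
        rw [hy]
        rfl }
  have hθ : Function.Injective θ := by
    intro x y h
    apply Subtype.ext
    apply Subtype.ext
    apply Mn.ext
    · have hx : ((x : E) : Mn T (Multiplicative ℤ)).p = 1 := x.2
      have hy : ((y : E) : Mn T (Multiplicative ℤ)).p = 1 := y.2
      rw [hx, hy]
    · have h1 : (fun t => (((x : E) : Mn T (Multiplicative ℤ)).f t).toAdd) =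
        (fun t => (((y : E) : Mn T (Multiplicative ℤ)).f t).toAdd) := h
      funext t
      exact congrFun h1 t
  have hM : Module.Finite ℤ (T → ℤ) := inferInstance
  have h1 : AddGroup.FG (T → ℤ) := Module.Finite.iff_addGroup_fg.1 hM
  have h2 : Group.FG (Multiplicative (T → ℤ)) := inferInstance
  have h3 : θ.range.FG := fg_sub_comm _
  have h4 : Group.FG θ.range := (Group.fg_iff_subgroup_fg _).2 h3
  have h5 := Group.fg_of_surjective (f := (MonoidHom.ofInjective hθ).symm.toMonoidHom)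
    (MonoidHom.ofInjective hθ).symm.surjective
  exact (Group.fg_iff_subgroup_fg _).1 h5

/-- the coordinates of a finitely generated virtually abelian group -/
theorem va_data' {G : Type*} [Group G] [Group.FG G] (A' : Subgroup G) (hA' : A'.FiniteIndex)
    (hc' : ∀ x ∈ A', ∀ y ∈ A', x * y = y * x) :
    ∃ (A : Subgroup G) (_ : A.Normal) (_ : A.FiniteIndex)
      (_ : ∀ x ∈ A, ∀ y ∈ A, x * y = y * x) (n K : ℕ)
      (φ : A →* Multiplicative (Fin n → ℤ)), A ≤ A' ∧ 0 < K ∧ Function.Surjective φ ∧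
      ∀ a, φ a = 1 → a ^ K = 1 := by
  have hc : ∀ x ∈ A'.normalCore, ∀ y ∈ A'.normalCore, x * y = y * x :=
    fun x hx y hy => hc' x (A'.normalCore_le hx) y (A'.normalCore_le hy)
  have hfi : A'.normalCore.FiniteIndex := inferInstance
  have hnn : A'.normalCore.Normal := inferInstance
  have hle : A'.normalCore ≤ A' := A'.normalCore_le
  generalize A'.normalCore = A at hc hfi hnn hle
  let _ : CommGroup A := { (inferInstance : Group A) with
    mul_comm := fun x y => Subtype.ext (hc x x.2 y y.2) }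
  have h1 : Group.FG A := inferInstance
  have h2 : AddGroup.FG (Additive A) := inferInstance
  obtain ⟨n, ι, hι, p, hp, e, ⟨f⟩⟩ := AddCommGroup.equiv_free_prod_directSum_zmod (Additive A)
  have h3 : ∀ i : ι, NeZero (p i ^ e i) := fun i => ⟨pow_ne_zero _ (hp i).ne_zero⟩
  have hfin : Finite (DirectSum ι fun i => ZMod (p i ^ e i)) :=
    Finite.of_equiv _ DFinsupp.equivFunOnFintype.symm
  let L := Finsupp.linearEquivFunOnFinite ℤ ℤ (Fin n)
  refine ⟨A, hnn, hfi, hc, n, Nat.card (DirectSum ι fun i => ZMod (p i ^ e i)),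
    AddMonoidHom.toMultiplicativeRight ((L.toAddEquiv.toAddMonoidHom.comp
      (AddMonoidHom.fst _ _)).comp f.toAddMonoidHom), hle, Nat.card_pos, ?_, ?_⟩
  · intro v
    refine ⟨(f.symm (L.symm v.toAdd, 0)).toMul, ?_⟩
    show Multiplicative.ofAdd (L ((f (f.symm (L.symm v.toAdd, 0))).1)) = v
    rw [AddEquiv.apply_symm_apply]
    simp
  · intro a ha
    have h4 : L ((f (Additive.ofMul a)).1) = 0 := ha
    have h5 : (f (Additive.ofMul a)).1 = 0 := by simpa using h4
    have h6 : f (Nat.card (DirectSum ι fun i => ZMod (p i ^ e i)) • Additive.ofMul a) = 0 := by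
      rw [map_nsmul]
      apply Prod.ext
      · rw [Prod.smul_fst, h5, smul_zero]
        rfl
      · rw [Prod.smul_snd]
        exact card_nsmul_eq_zero'
    have h7 := (AddEquiv.map_eq_zero_iff f).1 h6
    exact h7

theorem cont' {G : Type*} [Group G] (A : Subgroup G) (hc : ∀ x ∈ A, ∀ y ∈ A, x * y = y * x)
    {n K : ℕ} (φ : A →* Multiplicative (Fin n → ℤ)) (hK : 0 < K) (hs : Function.Surjective φ)
    (hφ : ∀ a, φ a = 1 → a ^ K = 1)
    [hA : A.Normal] [hf : A.FiniteIndex] [Group.FG G] (c : G) (hcm : c ∈ pw A hc K)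
    (hc1 : c ≠ 1) :
    ∃ (N : Subgroup G) (_ : N.Normal) (_ : N.FiniteIndex) (_ : c ∈ N)
      (e : N →* Multiplicative (Fin n → ℤ)), N ≤ A ∧ Function.Injective e ∧
      ∀ g ∈ N, ∀ m : ℕ, 0 < m → ∀ l : ℤ, g ^ m = c ^ l → ∃ j : ℤ, g = c ^ j := by
  obtain ⟨a, ha, rfl⟩ := hcm
  have hu : (φ ⟨a, ha⟩).toAdd ≠ 0 := by
    intro h0
    have h1 := hφ ⟨a, ha⟩ h0
    exact hc1 (congrArg Subtype.val h1)
  obtain ⟨k, v, al, hk, hv, hal⟩ := prim _ hu
  obtain ⟨a', ha'⟩ := hs (Multiplicative.ofAdd v)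
  have h1 : (⟨a, ha⟩ : A) ^ K = (a' ^ k) ^ K := by
    refine pow_eq A hc φ hφ _ _ ?_
    rw [map_pow, ha']
    exact hv
  have h2 : a ^ K = (a' : G) ^ (K * k) := by
    have := congrArg Subtype.val h1
    rw [mul_comm K k, pow_mul]
    exact this
  refine ⟨pw A hc (K * k), pw_normal A hc _, pw_fi A hc _ (Nat.mul_pos hK hk), ?_,
    pe A hc φ k, pw_le A hc _, pe_inj A hc φ hK hφ hk, ?_⟩
  · exact ⟨a', a'.2, h2⟩
  · rintro _ ⟨b, hb, rfl⟩ m hm l hg
    rw [h2] at hg ⊢
    have h3 : ((⟨b, hb⟩ : A) ^ (K * k)) ^ m = (a' ^ (K * k)) ^ l := Subtype.ext hg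
    have h4 : (φ ⟨b, hb⟩ ^ (K * k)) ^ m = ((Multiplicative.ofAdd v) ^ (K * k)) ^ l := by
      rw [← ha', ← map_pow, ← map_pow, ← map_pow, ← map_zpow, h3]
    have h5 : m • ((K * k) • (φ ⟨b, hb⟩).toAdd) = l • ((K * k) • v) := h4
    have h6 : (K * k) • ((m : ℤ) • (φ ⟨b, hb⟩).toAdd - l • v) = 0 := by
      rw [smul_sub, smul_comm _ l v, ← h5, natCast_zsmul, smul_comm (K * k) m, sub_self]
    have h7 := vec_smul_eq_zero (Nat.mul_pos hK hk) _ h6
    obtain ⟨j, hj⟩ := prim_div v al _ hal m hm l (sub_eq_zero.1 h7)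
    refine ⟨j, ?_⟩
    have h8 : (⟨b, hb⟩ : A) ^ K = (a' ^ j) ^ K := by
      refine pow_eq A hc φ hφ _ _ ?_
      rw [map_zpow, ha']
      exact hj
    have h9 : b ^ K = ((a' : G) ^ j) ^ K := congrArg Subtype.val h8
    rw [pow_mul, h9, ← pow_mul, ← zpow_natCast, ← zpow_mul, mul_comm j, zpow_mul, zpow_natCast]

end Pool.Agent.X260.RA
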