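import Pool.Agent.X260.RA.Key

/-!
# Residual amenability of amalgams
-/

set_option autoImplicit false
set_option linter.unusedSectionVars false

namespace Pool.Agent.X260.RA

open Pool.Agent.H883B Pool.Agent.X260.VA

universe u

/-! ### normal forms -/

section nf

variable {G : Type*} [Group G] (S : Bool → Subgroup G) (S₀ : Subgroup G)

/-- alternating words -/
def Alt : Bool → List G → Prop
  | _, [] => True
  | b, x :: l => x ∈ S b ∧ x ∉ S₀ ∧ Alt (!b) l

/-- elements with a normal form -/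
def NF (g : G) : Prop := g ∈ S₀ ∨ ∃ b l, l ≠ [] ∧ Alt S S₀ b l ∧ g = l.prod

theorem nf_mul (h₀ : ∀ b, S₀ ≤ S b) (b : Bool) (a : G) (ha : a ∈ S b) (g : G) (hg : NF S S₀ g) :
    NF S S₀ (a * g) := by
  rcases hg with hg | ⟨b', l, hl, hA, rfl⟩
  · by_cases h : a * g ∈ S₀
    · exact Or.inl h
    · exact Or.inr ⟨b, [a * g], by simp, ⟨(S b).mul_mem ha (h₀ b hg), h, trivial⟩, by simp⟩
  · cases l with
    | nil => exact absurd rfl hl
    | cons x l' =>
      obtain ⟨hx, hx₀, hA⟩ := hA
      by_cases hb : b' = b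
      · subst hb
        by_cases h : a * x ∈ S₀
        · cases l' with
          | nil =>
            left
            simpa using h
          | cons y l'' =>
            obtain ⟨hy, hy₀, hA⟩ := hA
            refine Or.inr ⟨!b', (a * x * y) :: l'', by simp, ⟨(S _).mul_mem (h₀ _ h) hy, ?_, hA⟩,
              by simp [mul_assoc]⟩
            intro h1
            apply hy₀
            have : y = (a * x)⁻¹ * (a * x * y) := by group
            rw [this]
            exact S₀.mul_mem (S₀.inv_mem h) h1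
        · exact Or.inr ⟨b', (a * x) :: l', by simp, ⟨(S _).mul_mem ha hx, h, hA⟩,
            by simp [mul_assoc]⟩
      · have hb' : b' = !b := by
          cases b <;> cases b' <;> simp_all
        subst hb'
        by_cases h : a ∈ S₀
        · refine Or.inr ⟨!b, (a * x) :: l', by simp, ⟨(S _).mul_mem (h₀ _ h) hx, ?_, hA⟩,
            by simp [mul_assoc]⟩
          intro h1
          apply hx₀
          have : x = a⁻¹ * (a * x) := by group
          rw [this]
          exact S₀.mul_mem (S₀.inv_mem h) h1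
        · exact Or.inr ⟨b, a :: x :: l', by simp, ⟨ha, h, hx, hx₀, hA⟩, by simp⟩

theorem nf (h₀ : ∀ b, S₀ ≤ S b) (hgen : S true ⊔ S false = ⊤) (g : G) : NF S S₀ g := by
  have hg : g ∈ Subgroup.closure ((S true : Set G) ∪ (S false : Set G)) := by
    rw [← Subgroup.sup_eq_closure, hgen]
    exact Subgroup.mem_top g
  induction hg using Subgroup.closure_induction_left with
  | one => exact Or.inl S₀.one_mem
  | mul_left x hx y _ ih =>
    rcases hx with hx | hx
    · exact nf_mul S S₀ h₀ true x hx y ih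
    · exact nf_mul S S₀ h₀ false x hx y ih
  | inv_mul_cancel x hx y _ ih =>
    rcases hx with hx | hx
    · exact nf_mul S S₀ h₀ true x⁻¹ ((S true).inv_mem hx) y ih
    · exact nf_mul S S₀ h₀ false x⁻¹ ((S false).inv_mem hx) y ih

end nf

/-! ### the lamplighter representation -/

section lamp

variable {B : Type u} [Group B] (H₀ : Subgroup B) (K : Type)

/-- the permutation of the functions -/
def pb : B →* Equiv.Perm ((B ⧸ H₀) → Equiv.Perm K) where
  toFun b :=
    { toFun := fun θ ω => θ (b⁻¹ • ω)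
      invFun := fun θ ω => θ (b • ω)
      left_inv := fun θ => by funext ω; simp
      right_inv := fun θ => by funext ω; simp }
  map_one' := by ext θ; simp
  map_mul' a b := by
    apply Equiv.ext
    intro θ
    funext ω
    show θ ((a * b)⁻¹ • ω) = θ (b⁻¹ • (a⁻¹ • ω))
    rw [mul_inv_rev, mul_smul]

/-- the plain representation -/
def eta : B →* Mn ((B ⧸ H₀) → Equiv.Perm K) (Equiv.Perm K) where
  toFun b := ⟨pb H₀ K b, fun _ => 1⟩
  map_one' := by
    apply Mn.ext
    · exact map_one _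
    · rfl
  map_mul' a b := by
    apply Mn.ext
    · exact map_mul _ a b
    · rfl

/-- the conjugating element -/
def XX : Mn ((B ⧸ H₀) → Equiv.Perm K) (Equiv.Perm K) := ⟨1, fun θ => θ (QuotientGroup.mk 1)⟩

theorem XX_comm (h : B) (hh : h ∈ H₀) : XX H₀ K * eta H₀ K h * (XX H₀ K)⁻¹ = eta H₀ K h := by
  rw [mul_inv_eq_iff_eq_mul]
  apply Mn.ext
  · rfl
  · funext θ
    show (pb H₀ K h θ) (QuotientGroup.mk 1) * 1 = 1 * θ (QuotientGroup.mk 1)
    rw [mul_one, one_mul]
    show θ (h⁻¹ • QuotientGroup.mk 1) = _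
    congr 1
    show (QuotientGroup.mk (h⁻¹ * 1) : B ⧸ H₀) = QuotientGroup.mk 1
    rw [QuotientGroup.eq]
    simpa using hh

/-- the amenable group containing the image -/
def WW : Subgroup (B × Mn ((B ⧸ H₀) → Equiv.Perm K) (Equiv.Perm K)) where
  carrier := {y | y.2.p = pb H₀ K y.1}
  one_mem' := by
    show (1 : Equiv.Perm ((B ⧸ H₀) → Equiv.Perm K)) = pb H₀ K 1
    rw [map_one]
  mul_mem' {a b} ha hb := by
    have ha : a.2.p = pb H₀ K a.1 := ha
    have hb : b.2.p = pb H₀ K b.1 := hb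
    show a.2.p * b.2.p = pb H₀ K (a.1 * b.1)
    rw [ha, hb, map_mul]
  inv_mem' {a} ha := by
    have ha : a.2.p = pb H₀ K a.1 := ha
    show (a.2.p)⁻¹ = pb H₀ K (a.1)⁻¹
    rw [ha, map_inv]

theorem am_WW [Finite K] (hB : IsAmenable B) : IsAmenable (WW H₀ K) := by
  refine am_ext ((MonoidHom.fst _ _).comp (WW H₀ K).subtype) ?_ hB
  have key : ∀ x : ((MonoidHom.fst B (Mn ((B ⧸ H₀) → Equiv.Perm K) (Equiv.Perm K))).comp
      (WW H₀ K).subtype).ker, (x : WW H₀ K).1.2.p = 1 := by
    rintro ⟨⟨x, hx⟩, hk⟩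
    have hx : x.2.p = pb H₀ K x.1 := hx
    have hk : x.1 = 1 := hk
    show x.2.p = 1
    rw [hx, hk, map_one]
  let θ : ((MonoidHom.fst B (Mn ((B ⧸ H₀) → Equiv.Perm K) (Equiv.Perm K))).comp
      (WW H₀ K).subtype).ker →* (((B ⧸ H₀) → Equiv.Perm K) → Equiv.Perm K) :=
    { toFun := fun x => (x : WW H₀ K).1.2.f
      map_one' := rfl
      map_mul' := fun x y => by
        have hy := key y
        funext t
        show (x : WW H₀ K).1.2.f ((y : WW H₀ K).1.2.p t) * (y : WW H₀ K).1.2.f t =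
          (x : WW H₀ K).1.2.f t * (y : WW H₀ K).1.2.f t
        rw [hy]
        rfl }
  refine am_inj θ ?_ am_pow
  intro x y hxy
  apply Subtype.ext
  apply Subtype.ext
  apply Prod.ext
  · have hx : (x : WW H₀ K).1.1 = 1 := x.2
    have hy : (y : WW H₀ K).1.1 = 1 := y.2
    rw [hx, hy]
  · apply Mn.ext
    · rw [key x, key y]
    · exact hxy

/-- the action of the monomial group -/
def act {I S : Type*} [Group S] {K : Type} (φ : S → Equiv.Perm K) (y : Mn I S) (x : I × K) : I × K :=
  (y.p x.1, φ (y.f x.1) x.2)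

theorem act_mul {I : Type*} {K : Type} (y z : Mn I (Equiv.Perm K)) (x : I × K) :
    act id (y * z) x = act id y (act id z x) := rfl

/-- swapping condition -/
def Swp {K : Type} (τ : B → Equiv.Perm K) (v : ℕ → K) (q : B) (j : ℕ) : Prop :=
  τ q (v j) = v (j + 1) ∧ τ q (v (j + 1)) = v j

variable {G : Type*} [Group G] (β : G →* B)

/-- swapping condition along a word -/
def Sw {K : Type} (τ : B → Equiv.Perm K) (v : ℕ → K) : B → ℕ → List G → Prop
  | q, j, [] => Swp τ v q j
  | q, j, x :: l => Swp τ v q j ∧ Sw τ v (q * β x) (j + 1) l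

theorem Sw.head {K : Type} {τ : B → Equiv.Perm K} {v : ℕ → K} {q : B} {j : ℕ} {l : List G}
    (h : Sw β τ v q j l) : Swp τ v q j := by
  cases l with
  | nil => exact h
  | cons x l => exact h.1

/-- the side after the end of the word -/
def fin' : Bool → List G → Bool
  | b, [] => b
  | b, _ :: l => fin' (!b) l

/-- prefix products -/
def pre : B → List G → ℕ → B
  | q, [], _ => q
  | q, _ :: _, 0 => q
  | q, x :: l, k + 1 => pre (q * β x) l k

theorem pre_zero (q : B) (l : List G) : pre β q l 0 = q := by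
  cases l <;> rfl

theorem pre_succ (l : List G) : ∀ (q : B) (k : ℕ), k < l.length →
    ∃ x ∈ l, pre β q l (k + 1) = pre β q l k * β x := by
  induction l with
  | nil => intro q k hk; simp at hk
  | cons x l ih =>
    intro q k hk
    cases k with
    | zero =>
      refine ⟨x, by simp, ?_⟩
      show pre β (q * β x) l 0 = _
      rw [pre_zero, pre_zero]
    | succ k =>
      obtain ⟨y, hy, h⟩ := ih (q * β x) k (by simpa using hk)
      exact ⟨y, List.mem_cons_of_mem _ hy, h⟩

theorem sw_of {K : Type} (τ : B → Equiv.Perm K) (v : ℕ → K) (l : List G) : ∀ (q : B) (j : ℕ),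
    (∀ k ≤ l.length, Swp τ v (pre β q l k) (j + k)) → Sw β τ v q j l := by
  induction l with
  | nil =>
    intro q j h
    exact h 0 le_rfl
  | cons x l ih =>
    intro q j h
    refine ⟨?_, ih _ _ ?_⟩
    · have := h 0 (Nat.zero_le _)
      exact this
    · intro k hk
      have := h (k + 1) (by simpa using hk)
      rw [show j + 1 + k = j + (k + 1) by ring]
      exact this

variable {K}

theorem eval_word (S : Bool → Subgroup G) (S₀ : Subgroup G)
    (Ψ : G →* Mn ((B ⧸ H₀) → Equiv.Perm K) (Equiv.Perm K))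
    (hT : ∀ x ∈ S true, Ψ x = XX H₀ K * eta H₀ K (β x) * (XX H₀ K)⁻¹)
    (hF : ∀ x ∈ S false, Ψ x = eta H₀ K (β x)) (θ : (B ⧸ H₀) → Equiv.Perm K) (v : ℕ → K)
    (l : List G) : ∀ (b : Bool) (q : B) (j : ℕ), Alt S S₀ b l →
      Sw β (fun q => θ (QuotientGroup.mk q)) v q j l →
      act id (Ψ l.prod) (fun ω => θ ((q * β l.prod) • ω),
        v (if fin' b l then j + l.length else j + l.length + 1)) =
        (fun ω => θ (q • ω), v (if b then j else j + 1)) := by
  induction l with
  | nil =>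
    intro b q j _ _
    rw [List.prod_nil, map_one, map_one, mul_one]
    rfl
  | cons x l ih =>
    intro b q j hA hS
    obtain ⟨hx, -, hA⟩ := hA
    obtain ⟨hS1, hS2⟩ := hS
    have h1 := ih (!b) (q * β x) (j + 1) hA hS2
    rw [List.prod_cons, map_mul, act_mul]
    have e1 : (fun ω => θ ((q * β (x * l.prod)) • ω)) =
        (fun ω => θ ((q * β x * β l.prod) • ω)) := by
      funext ω
      rw [map_mul, mul_assoc]
    have e2 : (if fin' b (x :: l) then j + (x :: l).length else j + (x :: l).length + 1) =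
        (if fin' (!b) l then j + 1 + l.length else j + 1 + l.length + 1) := by
      show (if fin' (!b) l then _ else _) = _
      rw [List.length_cons]
      split_ifs <;> ring
    rw [e1, e2, h1]
    have e3 : ∀ ω, θ ((q * β x) • ((β x)⁻¹ • ω)) = θ (q • ω) := by
      intro ω
      rw [← mul_smul]
      congr 2
      group
    cases b with
    | false =>
      rw [hF x hx]
      apply Prod.ext
      · funext ω
        exact e3 ω
      · rfl
    | true =>
      rw [hT x hx]
      have hm1 : ((q * β x) • (QuotientGroup.mk 1 : B ⧸ H₀)) = QuotientGroup.mk (q * β x) := by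
        show (QuotientGroup.mk (q * β x * 1) : B ⧸ H₀) = _
        rw [mul_one]
      have hm2 : (q • (QuotientGroup.mk 1 : B ⧸ H₀)) = QuotientGroup.mk q := by
        show (QuotientGroup.mk (q * 1) : B ⧸ H₀) = _
        rw [mul_one]
      have s1 := hS2.head
      rw [act_mul, act_mul]
      have a1 : act id (XX H₀ K)⁻¹ (fun ω => θ ((q * β x) • ω),
          v (if !true then j + 1 else j + 1 + 1)) =
          (fun ω => θ ((q * β x) • ω), v (j + 1)) := by
        apply Prod.ext
        · rfl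
        · show (θ ((q * β x) • (QuotientGroup.mk 1 : B ⧸ H₀)))⁻¹ (v (j + 1 + 1)) = v (j + 1)
          rw [hm1, Equiv.Perm.inv_eq_iff_eq]
          exact s1.1.symm
      rw [a1]
      have a2 : act id (eta H₀ K (β x)) (fun ω => θ ((q * β x) • ω), v (j + 1)) =
          (fun ω => θ (q • ω), v (j + 1)) := by
        apply Prod.ext
        · funext ω
          exact e3 ω
        · rfl
      rw [a2]
      apply Prod.ext
      · rfl
      · show (θ (q • (QuotientGroup.mk 1 : B ⧸ H₀))) (v (j + 1)) = v j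
        rw [hm2]
        exact hS1.2

end lamp

/-! ### the involutions -/

section inv

variable {Ω : Type*} (n : ℕ) (ω : ℕ → Ω)

open Classical in
/-- the involution attached to a point -/
noncomputable def ff (x : Ω) (k : Fin (n + 2)) : Fin (n + 2) :=
  if h : k.1 ≤ n ∧ ω k.1 = x then ⟨k.1 + 1, by omega⟩
  else if h' : 1 ≤ k.1 ∧ ω (k.1 - 1) = x then ⟨k.1 - 1, by omega⟩ else k

theorem ff_up (x : Ω) (k : ℕ) (hk : k ≤ n) (h : ω k = x) :
    ff n ω x ⟨k, by omega⟩ = ⟨k + 1, by omega⟩ := by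
  unfold ff
  rw [dif_pos ⟨hk, h⟩]

theorem ff_down (hω : ∀ k < n, ω k ≠ ω (k + 1)) (x : Ω) (k : ℕ) (hk : k ≤ n) (h : ω k = x) :
    ff n ω x ⟨k + 1, by omega⟩ = ⟨k, by omega⟩ := by
  unfold ff
  rw [dif_neg]
  · rw [dif_pos]
    · simp
    · exact ⟨by simp, by simpa using h⟩
  · rintro ⟨h1, h2⟩
    exact hω k (by simp at h1; omega) (h.trans h2.symm)

theorem ff_inv (hω : ∀ k < n, ω k ≠ ω (k + 1)) (x : Ω) : Function.Involutive (ff n ω x) := by
  rintro ⟨k, hk⟩
  by_cases h1 : k ≤ n ∧ ω k = x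
  · rw [ff_up n ω x k h1.1 h1.2, ff_down n ω hω x k h1.1 h1.2]
  · by_cases h2 : 1 ≤ k ∧ ω (k - 1) = x
    · obtain ⟨k, rfl⟩ := Nat.exists_eq_add_of_le' h2.1
      have h3 : ω k = x := by simpa using h2.2
      rw [ff_down n ω hω x k (by omega) h3, ff_up n ω x k (by omega) h3]
    · have h3 : ff n ω x ⟨k, hk⟩ = ⟨k, hk⟩ := by
        unfold ff
        rw [dif_neg h1, dif_neg h2]
      rw [h3, h3]

end inv

theorem word_ne {G B : Type u} [Group G] [Group B] (β : G →* B) (S : Bool → Subgroup G)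
    (S₀ : Subgroup G) (l : List G) (b : Bool) (hA : Alt S S₀ b l) (n : ℕ) (hn : n = l.length)
    (hl : 2 ≤ n) (hβ : ∀ x ∈ l, β x ∉ S₀.map β)
    (Ψ : G →* Mn ((B ⧸ S₀.map β) → Equiv.Perm (Fin (n + 2)))
      (Equiv.Perm (Fin (n + 2))))
    (hT : ∀ x ∈ S true, Ψ x = XX (S₀.map β) _ * eta (S₀.map β) _ (β x) * (XX (S₀.map β) _)⁻¹)
    (hF : ∀ x ∈ S false, Ψ x = eta (S₀.map β) _ (β x)) : Ψ l.prod ≠ 1 := by
  classical
  let ω : ℕ → B ⧸ S₀.map β := fun k => QuotientGroup.mk (pre β 1 l k)
  have hω : ∀ k < n, ω k ≠ ω (k + 1) := by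
    intro k hk h
    obtain ⟨x, hx, hp⟩ := pre_succ β l 1 k (hn ▸ hk)
    apply hβ x hx
    have h1 := QuotientGroup.eq.1 h
    rw [hp] at h1
    have h2 : (pre β 1 l k)⁻¹ * (pre β 1 l k * β x) = β x := by group
    rwa [h2] at h1
  let θ : (B ⧸ S₀.map β) → Equiv.Perm (Fin (n + 2)) := fun x => (ff_inv n ω hω x).toPerm
  let v : ℕ → Fin (n + 2) := fun k => if h : k < n + 2 then ⟨k, h⟩ else 0
  have hv : ∀ k (h : k < n + 2), v k = ⟨k, h⟩ := fun k h => dif_pos h
  have hSw : Sw β (fun q => θ (QuotientGroup.mk q)) v 1 0 l := by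
    refine sw_of β _ v l 1 0 ?_
    intro k hk
    rw [zero_add]
    rw [← hn] at hk
    constructor
    · rw [hv k (by omega), hv (k + 1) (by omega)]
      exact ff_up n ω _ k hk rfl
    · rw [hv k (by omega), hv (k + 1) (by omega)]
      exact ff_down n ω hω _ k hk rfl
  intro h1
  have h2 := eval_word (S₀.map β) β S S₀ Ψ hT hF θ v l b 1 0 hA hSw
  rw [h1] at h2
  have h3 : v (if fin' b l then 0 + l.length else 0 + l.length + 1) = v (if b then 0 else 0 + 1) :=
    congrArg Prod.snd h2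
  rw [zero_add, zero_add, ← hn] at h3
  have h4 : (if fin' b l then n else n + 1) = (if b then 0 else 1) := by
    rw [hv _ (by split_ifs <;> omega), hv _ (by split_ifs <;> omega)] at h3
    exact congrArg Fin.val h3
  split_ifs at h4 <;> omega

/-- the main theorem, for a group with the universal property of the amalgamated product -/
theorem main {G₀ G₁ G₂ G : Type u} [Group G₀] [Group G₁] [Group G₂] [Group G]
    (i₁ : G₀ →* G₁) (i₂ : G₀ →* G₂) (r₁ : ResAm G₁) (r₂ : ResAm G₂) (hv : VirtCyc G₀)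
    (j₁ : G₁ →* G) (j₂ : G₂ →* G) (hj : ∀ g, j₁ (i₁ g) = j₂ (i₂ g))
    (hgen : j₁.range ⊔ j₂.range = ⊤)
    (huniv : ∀ (W : Type u) [Group W] (β₁ : G₁ →* W) (β₂ : G₂ →* W),
      (∀ g, β₁ (i₁ g) = β₂ (i₂ g)) → ∃ β : G →* W, (∀ g, β (j₁ g) = β₁ g) ∧ ∀ g, β (j₂ g) = β₂ g)
    (K₁ : Subgroup G₁) (hK₁ : ∀ g, i₁ g ∈ K₁) (ρ₁ : K₁ →* G₀) (hρ₁ : ∀ g, ρ₁ ⟨i₁ g, hK₁ g⟩ = g)
    (K₂ : Subgroup G₂) (hK₂ : ∀ g, i₂ g ∈ K₂) (ρ₂ : K₂ →* G₀) (hρ₂ : ∀ g, ρ₂ ⟨i₂ g, hK₂ g⟩ = g)
    (hf₁ : K₁.FiniteIndex) (hf₂ : K₂.FiniteIndex) : ResAm G := by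
  classical
  -- the key lemma
  have key : ∀ (l₁ : List G₁) (l₂ : List G₂), ∃ (W : Type u) (_ : Group W) (β : G →* W),
      IsAmenable W ∧ Sep i₁ (β.comp j₁) l₁ ∧ Sep i₂ (β.comp j₂) l₂ := by
    intro l₁ l₂
    have h : ∃ (W : Type u) (_ : Group W) (β₁ : G₁ →* W) (β₂ : G₂ →* W), IsAmenable W ∧
      (∀ g, β₁ (i₁ g) = β₂ (i₂ g)) ∧ Sep i₁ β₁ l₁ ∧ Sep i₂ β₂ l₂ := by
      rcases finite_or_infinite G₀ with h | h
      · exact key_fin i₁ i₂ K₁ hK₁ ρ₁ hρ₁ K₂ hK₂ ρ₂ hρ₂ r₁ r₂ hf₁ hf₂ l₁ l₂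
      · exact key_inf i₁ i₂ K₁ hK₁ ρ₁ hρ₁ K₂ hK₂ ρ₂ hρ₂ r₁ r₂ hf₁ hf₂ hv h l₁ l₂
    obtain ⟨W, _, β₁, β₂, hW, ha, s₁, s₂⟩ := h
    obtain ⟨β, hβ₁, hβ₂⟩ := huniv W β₁ β₂ ha
    have e₁ : β.comp j₁ = β₁ := MonoidHom.ext hβ₁
    have e₂ : β.comp j₂ = β₂ := MonoidHom.ext hβ₂
    exact ⟨W, inferInstance, β, hW, by rw [e₁]; exact s₁, by rw [e₂]; exact s₂⟩
  let S : Bool → Subgroup G := fun b => if b then j₁.range else j₂.range
  let S₀ : Subgroup G := (j₁.comp i₁).range
  have h₀ : ∀ b, S₀ ≤ S b := by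
    intro b
    cases b
    · rintro _ ⟨g, rfl⟩
      exact ⟨i₂ g, (hj g).symm⟩
    · rintro _ ⟨g, rfl⟩
      exact ⟨i₁ g, rfl⟩
  -- elements of the factors
  have case1 : ∀ a : G₁, j₁ a ≠ 1 → ∃ (A : Type u) (_ : Group A), IsAmenable A ∧
      ∃ π : G →* A, π (j₁ a) ≠ 1 := by
    intro a ha
    obtain ⟨W, _, β, hW, s₁, -⟩ := key [a] []
    exact ⟨W, inferInstance, hW, β, (s₁ a (by simp)).1 (fun h => ha (by rw [h, map_one]))⟩
  have case2 : ∀ a : G₂, j₂ a ≠ 1 → ∃ (A : Type u) (_ : Group A), IsAmenable A ∧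
      ∃ π : G →* A, π (j₂ a) ≠ 1 := by
    intro a ha
    obtain ⟨W, _, β, hW, -, s₂⟩ := key [] [a]
    exact ⟨W, inferInstance, hW, β, (s₂ a (by simp)).1 (fun h => ha (by rw [h, map_one]))⟩
  intro g hg
  rcases nf S S₀ h₀ hgen g with ⟨c, rfl⟩ | ⟨b, l, hl, hA, rfl⟩
  · exact case1 (i₁ c) hg
  · by_cases h2 : 2 ≤ l.length
    · -- reduced words
      obtain ⟨W, _, β, hW, s₁, s₂⟩ := key
        (l.map fun x => if h : x ∈ j₁.range then h.choose else 1)
        (l.map fun x => if h : x ∈ j₂.range then h.choose else 1)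
      have hlet : ∀ (l' : List G) (b : Bool), Alt S S₀ b l' → ∀ x ∈ l', (∃ b, x ∈ S b) ∧ x ∉ S₀ := by
        intro l'
        induction l' with
        | nil => intro b _ x hx; simp at hx
        | cons y l' ih =>
          rintro b ⟨h1, h2, h3⟩ x hx
          rcases List.mem_cons.1 hx with rfl | hx
          · exact ⟨⟨b, h1⟩, h2⟩
          · exact ih _ h3 x hx
      have hβ : ∀ x ∈ l, β x ∉ S₀.map β := by
        rintro x hx ⟨_, ⟨c, rfl⟩, hc⟩
        obtain ⟨⟨b', hb'⟩, hx₀⟩ := hlet l b hA x hx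
        cases b' with
        | true =>
          have hr : x ∈ j₁.range := hb'
          have hch := hr.choose_spec
          have hm : hr.choose ∈ (l.map fun x => if h : x ∈ j₁.range then h.choose else 1) := by
            refine List.mem_map.2 ⟨x, hx, ?_⟩
            rw [dif_pos hr]
          have h5 := (s₁ _ hm).2 (by
            rintro ⟨c', hc'⟩
            apply hx₀
            refine ⟨c', ?_⟩
            show j₁ (i₁ c') = x
            rw [hc', hch]) c
          apply h5
          show β (j₁ hr.choose) = β (j₁ (i₁ c))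
          rw [hch]
          exact hc.symm
        | false =>
          have hr : x ∈ j₂.range := hb'
          have hch := hr.choose_spec
          have hm : hr.choose ∈ (l.map fun x => if h : x ∈ j₂.range then h.choose else 1) := by
            refine List.mem_map.2 ⟨x, hx, ?_⟩
            rw [dif_pos hr]
          have h5 := (s₂ _ hm).2 (by
            rintro ⟨c', hc'⟩
            apply hx₀
            refine ⟨c', ?_⟩
            show j₁ (i₁ c') = x
            rw [hj, hc', hch]) c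
          apply h5
          show β (j₂ hr.choose) = β (j₂ (i₂ c))
          rw [hch, ← hj]
          exact hc.symm
      let H₀ := S₀.map β
      let K := Fin (l.length + 2)
      let MM := Mn ((W ⧸ H₀) → Equiv.Perm K) (Equiv.Perm K)
      let γ₁ : G₁ →* W × MM := (β.comp j₁).prod
        ((MulAut.conj (XX H₀ K)).toMonoidHom.comp ((eta H₀ K).comp (β.comp j₁)))
      let γ₂ : G₂ →* W × MM := (β.comp j₂).prod ((eta H₀ K).comp (β.comp j₂))
      obtain ⟨γ, hγ₁, hγ₂⟩ := huniv (W × MM) γ₁ γ₂ (by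
        intro c
        apply Prod.ext
        · show β (j₁ (i₁ c)) = β (j₂ (i₂ c))
          rw [hj]
        · show XX H₀ K * eta H₀ K (β (j₁ (i₁ c))) * (XX H₀ K)⁻¹ = eta H₀ K (β (j₂ (i₂ c)))
          have hcm := XX_comm H₀ K (β (j₁ (i₁ c))) ⟨_, ⟨c, rfl⟩, rfl⟩
          rw [hcm, hj])
      -- the first component
      have hfst : ∀ g, (γ g).1 = β g := by
        have h6 : (MonoidHom.fst W MM).comp γ = β := by
          have h7 : (⊤ : Subgroup G) ≤ ((MonoidHom.fst W MM).comp γ).eqLocus β := by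
            rw [← hgen, sup_le_iff]
            constructor
            · rintro _ ⟨a, rfl⟩
              show (γ (j₁ a)).1 = β (j₁ a)
              rw [hγ₁]
              rfl
            · rintro _ ⟨a, rfl⟩
              show (γ (j₂ a)).1 = β (j₂ a)
              rw [hγ₂]
              rfl
          exact MonoidHom.ext fun g => h7 (Subgroup.mem_top g)
        intro g
        exact DFunLike.congr_fun h6 g
      have hmem : ∀ g, γ g ∈ WW H₀ K := by
        have h7 : (⊤ : Subgroup G) ≤ (WW H₀ K).comap γ := by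
          rw [← hgen, sup_le_iff]
          constructor
          · rintro _ ⟨a, rfl⟩
            show (γ (j₁ a)).2.p = pb H₀ K (γ (j₁ a)).1
            rw [hγ₁]
            show 1 * pb H₀ K (β (j₁ a)) * (1 : Equiv.Perm ((W ⧸ H₀) → Equiv.Perm K))⁻¹ =
              pb H₀ K (β (j₁ a))
            group
          · rintro _ ⟨a, rfl⟩
            show (γ (j₂ a)).2.p = pb H₀ K (γ (j₂ a)).1
            rw [hγ₂]
            rfl
        intro g
        exact h7 (Subgroup.mem_top g)
      refine ⟨WW H₀ K, inferInstance, am_WW H₀ K hW, γ.codRestrict _ hmem, ?_⟩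
      intro h8
      have h9 : γ l.prod = 1 := congrArg Subtype.val h8
      refine word_ne β S S₀ l b hA l.length rfl h2 hβ ((MonoidHom.snd W MM).comp γ) ?_ ?_
        (congrArg Prod.snd h9)
      · rintro _ ⟨a, rfl⟩
        show (γ (j₁ a)).2 = _
        rw [hγ₁]
        rfl
      · rintro _ ⟨a, rfl⟩
        show (γ (j₂ a)).2 = _
        rw [hγ₂]
        rfl
    · cases l with
      | nil => exact absurd rfl hl
      | cons x l' =>
        cases l' with
        | nil =>
          obtain ⟨hx, -, -⟩ := hA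
          rw [List.prod_singleton] at hg ⊢
          cases b with
          | true =>
            obtain ⟨a, rfl⟩ := hx
            exact case1 a hg
          | false =>
            obtain ⟨a, rfl⟩ := hx
            exact case2 a hg
        | cons y l'' =>
          exfalso
          apply h2
          simp

end Pool.Agent.X260.RA
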