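import Pool.Agent.X260.RA.Data
import Pool.Agent.X260.VA.Main

/-!
# Amenable quotients of amalgams which separate finitely many elements
-/

set_option autoImplicit false
set_option linter.unusedSectionVars false

namespace Pool.Agent.X260.RA

open Pool.Agent.H883B Pool.Agent.X260.VA

universe u

section single

variable {G₀ G : Type u} [Group G₀] [Group G] (i : G₀ →* G) (K : Subgroup G)
  (hK : ∀ g, i g ∈ K) (ρ : K →* G₀) (hρ : ∀ g, ρ ⟨i g, hK g⟩ = g) (C : Subgroup G₀)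

/-- elements of `K` which are retracted into `C` -/
def KC : Subgroup G where
  carrier := {g | ∃ h : g ∈ K, ρ ⟨g, h⟩ ∈ C}
  one_mem' := ⟨K.one_mem, by
    have : (⟨1, K.one_mem⟩ : K) = 1 := rfl
    rw [this, map_one]
    exact C.one_mem⟩
  mul_mem' {a b} := by
    rintro ⟨ha, ha'⟩ ⟨hb, hb'⟩
    refine ⟨K.mul_mem ha hb, ?_⟩
    have : (⟨a * b, K.mul_mem ha hb⟩ : K) = ⟨a, ha⟩ * ⟨b, hb⟩ := rfl
    rw [this, map_mul]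
    exact C.mul_mem ha' hb'
  inv_mem' {a} := by
    rintro ⟨ha, ha'⟩
    refine ⟨K.inv_mem ha, ?_⟩
    have : (⟨a⁻¹, K.inv_mem ha⟩ : K) = ⟨a, ha⟩⁻¹ := rfl
    rw [this, map_inv]
    exact C.inv_mem ha'

theorem KC_fi (hKf : K.FiniteIndex) (hC : C.FiniteIndex) : (KC K ρ C).FiniteIndex := by
  have h1 : KC K ρ C = (C.comap ρ).map K.subtype := by
    ext g
    constructor
    · rintro ⟨h, h'⟩
      exact ⟨⟨g, h⟩, h', rfl⟩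
    · rintro ⟨⟨g, h⟩, h', rfl⟩
      exact ⟨h, h'⟩
  constructor
  rw [h1, Subgroup.index_map_subtype]
  refine mul_ne_zero ?_ hKf.index_ne_zero
  rw [Subgroup.index_comap]
  exact fun h0 => hC.index_ne_zero (Subgroup.index_eq_zero_of_relIndex_eq_zero h0)

include hρ in
theorem single_va (hKf : K.FiniteIndex) (z : G₀) (hz : Function.Injective (zpowersHom G₀ z))
    (hC : (zpowersHom G₀ z).range.FiniteIndex) :
    ∃ (E : Type u) (_ : Group E) (π : G →* E) (A' : Subgroup E), Group.FG E ∧ A'.FiniteIndex ∧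
      (∀ x ∈ A', ∀ y ∈ A', x * y = y * x) ∧ Function.Injective (π.comp i) ∧
      ∀ g, π g ∈ A' → g ∈ K := by
  let e := MonoidHom.ofInjective hz
  let KK := KC K ρ (zpowersHom G₀ z).range
  have hKKf : KK.FiniteIndex := KC_fi K ρ _ hKf hC
  have hfin : Finite (G ⧸ KK) := inferInstance
  have hρm : ∀ x : KK, ∃ h : (x : G) ∈ K, ρ ⟨x, h⟩ ∈ (zpowersHom G₀ z).range := fun x => x.2
  let f : KK →* Multiplicative ℤ :=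
    { toFun := fun x => e.symm ⟨ρ ⟨x, (hρm x).1⟩, (hρm x).2⟩
      map_one' := by
        have : (⟨ρ ⟨((1 : KK) : G), (hρm 1).1⟩, (hρm 1).2⟩ : (zpowersHom G₀ z).range) = 1 := by
          apply Subtype.ext
          show ρ 1 = 1
          exact map_one ρ
        rw [this, map_one]
      map_mul' := fun x y => by
        rw [← map_mul]
        congr 1
        apply Subtype.ext
        exact map_mul ρ ⟨x, (hρm x).1⟩ ⟨y, (hρm y).1⟩ }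
  obtain ⟨β, hβ⟩ := coind KK f
  refine ⟨β.range, inferInstance, β.rangeRestrict, (Mn.perm.ker).subgroupOf β.range, mn_fg _,
    ?_, ?_, ?_, ?_⟩
  · have : Finite (Equiv.Perm (G ⧸ KK)) := inferInstance
    have : (Mn.perm (T := G ⧸ KK) (M := Multiplicative ℤ)).ker.FiniteIndex := inferInstance
    infer_instance
  · rintro ⟨x, hx'⟩ hx ⟨y, hy'⟩ hy
    have hx : x.p = 1 := hx
    have hy : y.p = 1 := hy
    apply Subtype.ext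
    show x * y = y * x
    apply Mn.ext
    · simp [hx, hy]
    · funext t
      simp [hx, hy, mul_comm]
  · rw [injective_iff_map_eq_one]
    intro g hg
    have h1 : β (i g) = 1 := congrArg Subtype.val hg
    obtain ⟨h2, h3⟩ := hβ (i g) (by rw [h1]; rfl)
    have h4 := h3 (by rw [h1]; rfl)
    have h5 : e.symm ⟨ρ ⟨i g, (hρm ⟨i g, h2⟩).1⟩, (hρm ⟨i g, h2⟩).2⟩ = 1 := h4
    have h6 := (MulEquiv.map_eq_one_iff _).1 h5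
    have h7 : ρ ⟨i g, (hρm ⟨i g, h2⟩).1⟩ = 1 := congrArg Subtype.val h6
    have h8 := hρ g
    rw [h7] at h8
    exact h8.symm
  · intro g hg
    have h1 : (β g).p = 1 := hg
    obtain ⟨h2, -⟩ := hβ g (by rw [h1]; rfl)
    exact h2.1

end single

/-- a linear form -/
def lin {n : ℕ} (a : Fin n → ℤ) : Multiplicative (Fin n → ℤ) →* Multiplicative ℤ :=
  AddMonoidHom.toMultiplicative
    { toFun := fun v => ∑ k, a k * v k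
      map_zero' := by simp
      map_add' := fun x y => by simp [mul_add, Finset.sum_add_distrib] }

theorem single_pos {G₀ G E : Type u} [Group G₀] [Group G] [Group E] (i : G₀ →* G) (π : G →* E)
    (hinj : Function.Injective (π.comp i)) (K : Subgroup G) [Group.FG E] (A : Subgroup E)
    [hA : A.Normal] [hAf : A.FiniteIndex] (hc : ∀ x ∈ A, ∀ y ∈ A, x * y = y * x) {n k : ℕ}
    (φ : A →* Multiplicative (Fin n → ℤ)) (hk : 0 < k) (hs : Function.Surjective φ)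
    (hφ : ∀ a, φ a = 1 → a ^ k = 1) (hAK : ∀ g, π g ∈ A → g ∈ K) (c : G₀) (hc1 : c ≠ 1)
    (hcm : π (i c) ∈ pw A hc k) (hcz : ∀ g : G₀, ∃ m : ℕ, 0 < m ∧ ∃ l : ℤ, g ^ m = c ^ l) :
    ∃ (N : Subgroup G) (_ : N.Normal) (_ : N.FiniteIndex)
      (hh : ∀ g, i g ∈ N ↔ g ∈ Subgroup.zpowers c) (f : N →* Multiplicative ℤ), N ≤ K ∧
      ∀ y : Orb i N, f (cj N y.out ⟨i c, (hh c).2 (Subgroup.mem_zpowers c)⟩) ≠ 1 := by
  have hc1' : π (i c) ≠ 1 := fun h => hc1 (hinj (by rw [map_one]; exact h))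
  obtain ⟨NE, hNE, hNEf, hcN, e, hNA, he, hr⟩ := cont' A hc φ hk hs hφ (π (i c)) hcm hc1'
  have hh : ∀ g, i g ∈ NE.comap π ↔ g ∈ Subgroup.zpowers c := by
    intro g
    constructor
    · intro h
      obtain ⟨m, hm, l, hl⟩ := hcz g
      obtain ⟨j, hj⟩ := hr (π (i g)) h m hm l (by rw [← map_pow, ← map_pow, hl, map_zpow, map_zpow])
      refine ⟨j, hinj ?_⟩
      show π (i (c ^ j)) = π (i g)
      rw [hj, map_zpow, map_zpow]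
    · rintro ⟨j, rfl⟩
      show π (i (c ^ j)) ∈ NE
      rw [map_zpow, map_zpow]
      exact NE.zpow_mem hcN j
  have hN : (NE.comap π).Normal := inferInstance
  have hNf : (NE.comap π).FiniteIndex := ⟨by
    rw [Subgroup.index_comap]
    exact fun h0 => hNEf.index_ne_zero (Subgroup.index_eq_zero_of_relIndex_eq_zero h0)⟩
  have hfin : Finite (Orb i (NE.comap π)) := orb_fin i (NE.comap π)
  let θ : NE.comap π →* Multiplicative (Fin n → ℤ) := e.comp (π.subgroupComap NE)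
  obtain ⟨a, ha⟩ := generic (fun y : Orb i (NE.comap π) =>
    (θ (cj (NE.comap π) y.out ⟨i c, (hh c).2 (Subgroup.mem_zpowers c)⟩)).toAdd) (by
      intro y h0
      have h1 : θ (cj (NE.comap π) y.out ⟨i c, (hh c).2 (Subgroup.mem_zpowers c)⟩) = 1 := h0
      have h2 := (injective_iff_map_eq_one e).1 he _ h1
      have h3 : π ((y.out)⁻¹ * i c * y.out) = 1 := congrArg Subtype.val h2
      rw [map_mul, map_mul, map_inv] at h3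
      apply hc1'
      have h4 : π (i c) = π y.out * ((π y.out)⁻¹ * π (i c) * π y.out) * (π y.out)⁻¹ := by group
      rw [h4, h3]
      simp)
  exact ⟨NE.comap π, hN, hNf, hh, (lin a).comp θ, fun g hg => hAK g (hNA hg), ha⟩

/-- residually amenable groups -/
def ResAm (G : Type u) [Group G] : Prop :=
  ∀ g : G, g ≠ 1 → ∃ (A : Type u) (_ : Group A), IsAmenable A ∧ ∃ π : G →* A, π g ≠ 1

theorem sep_list {G : Type u} [Group G] (h : ResAm G) (l : List G) :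
    ∃ (A : Type u) (_ : Group A), IsAmenable A ∧ ∃ π : G →* A, ∀ x ∈ l, x ≠ 1 → π x ≠ 1 := by
  induction l with
  | nil => exact ⟨PUnit, inferInstance, am_finite, 1, by simp⟩
  | cons a l ih =>
    obtain ⟨A, hA, hA', π, hπ⟩ := ih
    by_cases ha : a = 1
    · refine ⟨A, hA, hA', π, ?_⟩
      intro x hx hx1
      rcases List.mem_cons.1 hx with rfl | hx
      · exact absurd ha hx1
      · exact hπ x hx hx1
    · obtain ⟨A₂, hA₂, hA₂', π₂, hπ₂⟩ := h a ha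
      refine ⟨A × A₂, inferInstance, am_prod hA' hA₂', π.prod π₂, ?_⟩
      intro x hx hx1 h0
      rcases List.mem_cons.1 hx with rfl | hx
      · exact hπ₂ (congrArg Prod.snd h0)
      · exact hπ x hx hx1 (congrArg Prod.fst h0)

section finish

variable {G₀ G₁ G₂ : Type u} [Group G₀] [Group G₁] [Group G₂] (i₁ : G₀ →* G₁) (i₂ : G₀ →* G₂)
  (K₁ : Subgroup G₁) (hK₁ : ∀ g, i₁ g ∈ K₁) (ρ₁ : K₁ →* G₀) (hρ₁ : ∀ g, ρ₁ ⟨i₁ g, hK₁ g⟩ = g)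
  (K₂ : Subgroup G₂) (hK₂ : ∀ g, i₂ g ∈ K₂) (ρ₂ : K₂ →* G₀) (hρ₂ : ∀ g, ρ₂ ⟨i₂ g, hK₂ g⟩ = g)

open Classical in
/-- the elements which have to be separated -/
noncomputable def tl {G : Type u} [Group G] (i : G₀ →* G) (K : Subgroup G) (ρ : K →* G₀)
    (l : List G) : List G :=
  l ++ l.map fun x => if h : x ∈ K then (i (ρ ⟨x, h⟩))⁻¹ * x else 1

/-- what has to be shown of one side -/
def Sep {G B : Type u} [Group G] [Group B] (i : G₀ →* G) (β : G →* B) (l : List G) : Prop :=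
  ∀ x ∈ l, (x ≠ 1 → β x ≠ 1) ∧ (x ∉ i.range → ∀ g, β x ≠ β (i g))

theorem sep_of {G B A : Type u} [Group G] [Group B] [Group A] (i : G₀ →* G) (K : Subgroup G)
    (hK : ∀ g, i g ∈ K) (ρ : K →* G₀) (hρ : ∀ g, ρ ⟨i g, hK g⟩ = g) (l : List G) (π : G →* A)
    (hπ : ∀ x ∈ tl i K ρ l, x ≠ 1 → π x ≠ 1) (N : Subgroup G) [N.Normal] (hNK : N ≤ K)
    (β : G →* B) (hβ : ∀ g, β g = 1 → ∃ hg : g ∈ N, ∃ a ∈ K, ∃ h : (cj N a ⟨g, hg⟩ : G) ∈ K,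
      π (cj N a ⟨g, hg⟩ : G) = 1 ∧ π (i (ρ ⟨(cj N a ⟨g, hg⟩ : G), h⟩)) = 1) : Sep i β l := by
  classical
  -- elements of the kernel
  have key : ∀ g, β g = 1 → ∃ hg : g ∈ K, π g = 1 ∧ π (i (ρ ⟨g, hg⟩)) = 1 := by
    intro g hg
    obtain ⟨hgN, a, ha, h, h1, h2⟩ := hβ g hg
    have h1 : π (a⁻¹ * g * a) = 1 := h1
    refine ⟨hNK hgN, ?_, ?_⟩
    · have h3 : g = a * (a⁻¹ * g * a) * a⁻¹ := by group
      rw [h3, map_mul, map_mul, h1, mul_one, map_inv, mul_inv_cancel]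
    · have h3 : (⟨g, hNK hgN⟩ : K) = ⟨a, ha⟩ * ⟨(cj N a ⟨g, hgN⟩ : G), h⟩ * ⟨a, ha⟩⁻¹ := by
        apply Subtype.ext
        show g = a * (a⁻¹ * g * a) * a⁻¹
        group
      rw [h3]
      simp only [map_mul, map_inv]
      rw [h2, mul_one, mul_inv_cancel]
  intro x hx
  constructor
  · intro hx1 hb
    obtain ⟨-, h1, -⟩ := key x hb
    exact hπ x (List.mem_append_left _ hx) hx1 h1
  · intro hxr g hb
    have h0 : β ((i g)⁻¹ * x) = 1 := by rw [map_mul, map_inv, hb, inv_mul_cancel]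
    obtain ⟨h1, h2, h3⟩ := key _ h0
    have hxK : x ∈ K := by
      have : x = i g * ((i g)⁻¹ * x) := by group
      rw [this]
      exact K.mul_mem (hK g) h1
    have h4 : (⟨(i g)⁻¹ * x, h1⟩ : K) = (⟨i g, hK g⟩ : K)⁻¹ * ⟨x, hxK⟩ := rfl
    rw [h4, map_mul, map_inv, hρ, map_mul, map_inv] at h3
    have h5 : (i (ρ ⟨x, hxK⟩))⁻¹ * x ≠ 1 := by
      intro h
      apply hxr
      exact ⟨ρ ⟨x, hxK⟩, inv_mul_eq_one.1 h⟩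
    refine hπ ((i (ρ ⟨x, hxK⟩))⁻¹ * x) (List.mem_append_right _ ?_) h5 ?_
    · refine List.mem_map.2 ⟨x, hx, ?_⟩
      rw [dif_pos hxK]
    · rw [map_mul, map_inv] at h2 h3 ⊢
      have h6 : π (i (ρ ⟨x, hxK⟩)) = π (i g) := (inv_mul_eq_one.1 h3).symm
      rw [h6]
      exact h2

/-- the homomorphism `n ↦ (π n, π (i (ρ n)), f n)` -/
def al {G A : Type u} [Group G] [Group A] (i : G₀ →* G) (K : Subgroup G) (ρ : K →* G₀)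
    (π : G →* A) (N : Subgroup G) (hNK : N ≤ K) (f : N →* Multiplicative ℤ) :
    N →* (A × A) × Multiplicative ℤ :=
  ((π.comp N.subtype).prod ((π.comp i).comp (ρ.comp (Subgroup.inclusion hNK)))).prod f

include hK₁ hρ₁ hK₂ hρ₂ in
theorem finish {A₁ A₂ : Type u} [Group A₁] [Group A₂] (π₁ : G₁ →* A₁) (π₂ : G₂ →* A₂)
    (l₁ : List G₁) (l₂ : List G₂)
    (hπ₁ : ∀ x ∈ tl i₁ K₁ ρ₁ l₁, x ≠ 1 → π₁ x ≠ 1) (hπ₂ : ∀ x ∈ tl i₂ K₂ ρ₂ l₂, x ≠ 1 → π₂ x ≠ 1)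
    (N₀ : Subgroup G₀) (N₁ : Subgroup G₁) (N₂ : Subgroup G₂) [hN₁ : N₁.Normal] [hN₂ : N₂.Normal]
    [hI₁ : N₁.FiniteIndex] [hI₂ : N₂.FiniteIndex]
    (h₁ : ∀ g, i₁ g ∈ N₁ ↔ g ∈ N₀) (h₂ : ∀ g, i₂ g ∈ N₂ ↔ g ∈ N₀) (k₁ : N₁ ≤ K₁) (k₂ : N₂ ≤ K₂)
    (f₁ : N₁ →* Multiplicative ℤ) (f₂ : N₂ →* Multiplicative ℤ)
    {L : Type u} [Group L] (hL : IsAmenable L) (A : Orb i₂ N₂ → N₁ →* L)
    (B : Orb i₁ N₁ → N₂ →* L) (U : Orb i₁ N₁ → Orb i₂ N₂ → L)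
    (compat : ∀ (n : G₀) (hn : n ∈ N₀) (y₁ : Orb i₁ N₁) (y₂ : Orb i₂ N₂),
      U y₁ y₂ * A y₂ (cj N₁ y₁.out ⟨i₁ n, (h₁ n).2 hn⟩) * (U y₁ y₂)⁻¹ =
        B y₁ (cj N₂ y₂.out ⟨i₂ n, (h₂ n).2 hn⟩))
    (kA : ∀ y n, A y n = 1 → al i₁ K₁ ρ₁ π₁ N₁ k₁ f₁ n = 1)
    (kB : ∀ y n, B y n = 1 → al i₂ K₂ ρ₂ π₂ N₂ k₂ f₂ n = 1) :
    ∃ (W : Type u) (_ : Group W) (β₁ : G₁ →* W) (β₂ : G₂ →* W), IsAmenable W ∧
      (∀ g, β₁ (i₁ g) = β₂ (i₂ g)) ∧ Sep i₁ β₁ l₁ ∧ Sep i₂ β₂ l₂ := by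
  have hT : Finite (TT i₁ i₂ N₀ N₁ N₂) := by
    have := orb_fin i₁ N₁
    have := orb_fin i₂ N₂
    have := quo_fin i₁ N₁ _ h₁
    infer_instance
  refine ⟨Mn (TT i₁ i₂ N₀ N₁ N₂) L, inferInstance, nu₁ i₁ i₂ N₀ N₁ N₂ h₁ A U,
    nu₂ i₁ i₂ N₀ N₁ N₂ h₂ B, am_mn hL, nu_agree i₁ i₂ N₀ N₁ N₂ h₁ h₂ A B U compat, ?_, ?_⟩
  · refine sep_of i₁ K₁ hK₁ ρ₁ hρ₁ l₁ π₁ hπ₁ N₁ k₁ _ ?_
    intro g hg
    obtain ⟨hgN, a, ha, y, hy⟩ := nu₁_ker i₁ i₂ N₀ N₁ N₂ h₁ A U K₁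
      (by rintro _ ⟨g, rfl⟩; exact hK₁ g) k₁ g hg
    have h3 := kA y _ hy
    refine ⟨hgN, a, ha, k₁ (cj N₁ a ⟨g, hgN⟩).2, ?_, ?_⟩
    · exact congrArg (fun z => z.1.1) h3
    · exact congrArg (fun z => z.1.2) h3
  · refine sep_of i₂ K₂ hK₂ ρ₂ hρ₂ l₂ π₂ hπ₂ N₂ k₂ _ ?_
    intro g hg
    obtain ⟨hgN, a, ha, y, hy⟩ := nu₂_ker i₁ i₂ N₀ N₁ N₂ h₂ B K₂
      (by rintro _ ⟨g, rfl⟩; exact hK₂ g) k₂ g hg
    have h3 := kB y _ hy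
    refine ⟨hgN, a, ha, k₂ (cj N₂ a ⟨g, hgN⟩).2, ?_, ?_⟩
    · exact congrArg (fun z => z.1.1) h3
    · exact congrArg (fun z => z.1.2) h3

include hρ₁ hρ₂ in
theorem key_fin (r₁ : ResAm G₁) (r₂ : ResAm G₂) (hK₁f : K₁.FiniteIndex) (hK₂f : K₂.FiniteIndex)
    [Finite G₀] (l₁ : List G₁) (l₂ : List G₂) :
    ∃ (W : Type u) (_ : Group W) (β₁ : G₁ →* W) (β₂ : G₂ →* W), IsAmenable W ∧
      (∀ g, β₁ (i₁ g) = β₂ (i₂ g)) ∧ Sep i₁ β₁ l₁ ∧ Sep i₂ β₂ l₂ := by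
  obtain ⟨A₁, _, m₁, π₁, hπ₁⟩ := sep_list r₁ (tl i₁ K₁ ρ₁ l₁)
  obtain ⟨A₂, _, m₂, π₂, hπ₂⟩ := sep_list r₂ (tl i₂ K₂ ρ₂ l₂)
  have hbot : (⊥ : Subgroup G₀).FiniteIndex := inferInstance
  have aux : ∀ {G : Type u} [Group G] (i : G₀ →* G) (K : Subgroup G) (hK : ∀ g, i g ∈ K)
      (ρ : K →* G₀) (_ : ∀ g, ρ ⟨i g, hK g⟩ = g) (g : G₀),
      i g ∈ (KC K ρ ⊥).normalCore ↔ g ∈ (⊥ : Subgroup G₀) := by
    intro G _ i K hK ρ hρ g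
    rw [Subgroup.mem_bot]
    constructor
    · intro h
      obtain ⟨h1, h2⟩ := Subgroup.normalCore_le _ h
      rw [Subgroup.mem_bot] at h2
      rw [← hρ g]
      exact h2
    · rintro rfl
      rw [map_one]
      exact Subgroup.one_mem _
  have fi₁ := KC_fi K₁ ρ₁ ⊥ hK₁f hbot
  have fi₂ := KC_fi K₂ ρ₂ ⊥ hK₂f hbot
  have k₁ : (KC K₁ ρ₁ ⊥).normalCore ≤ K₁ := fun g hg => (Subgroup.normalCore_le _ hg).1
  have k₂ : (KC K₂ ρ₂ ⊥).normalCore ≤ K₂ := fun g hg => (Subgroup.normalCore_le _ hg).1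
  refine finish i₁ i₂ K₁ hK₁ ρ₁ hρ₁ K₂ hK₂ ρ₂ hρ₂ π₁ π₂ l₁ l₂ hπ₁ hπ₂ ⊥
    (KC K₁ ρ₁ ⊥).normalCore (KC K₂ ρ₂ ⊥).normalCore (aux i₁ K₁ hK₁ ρ₁ hρ₁)
    (aux i₂ K₂ hK₂ ρ₂ hρ₂) k₁ k₂ 1 1
    (L := ((A₁ × A₁) × Multiplicative ℤ) × ((A₂ × A₂) × Multiplicative ℤ))
    (am_prod (am_prod (am_prod m₁ m₁) am_int) (am_prod (am_prod m₂ m₂) am_int))
    (fun _ => (MonoidHom.inl _ _).comp (al i₁ K₁ ρ₁ π₁ _ k₁ 1))
    (fun _ => (MonoidHom.inr _ _).comp (al i₂ K₂ ρ₂ π₂ _ k₂ 1)) (fun _ _ => 1) ?_ ?_ ?_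
  · intro n hn y₁ y₂
    rw [Subgroup.mem_bot] at hn
    subst hn
    have e1 : (⟨i₁ 1, (aux i₁ K₁ hK₁ ρ₁ hρ₁ 1).2 rfl⟩ : (KC K₁ ρ₁ ⊥).normalCore) = 1 :=
      Subtype.ext (map_one i₁)
    have e2 : (⟨i₂ 1, (aux i₂ K₂ hK₂ ρ₂ hρ₂ 1).2 rfl⟩ : (KC K₂ ρ₂ ⊥).normalCore) = 1 :=
      Subtype.ext (map_one i₂)
    rw [e1, e2]
    simp
  · intro y n h
    exact congrArg Prod.fst h
  · intro y n h
    exact congrArg Prod.snd h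

include hρ₁ hρ₂ in
theorem key_inf (r₁ : ResAm G₁) (r₂ : ResAm G₂) (hK₁f : K₁.FiniteIndex) (hK₂f : K₂.FiniteIndex)
    (hv : VirtCyc G₀) (hinf : Infinite G₀) (l₁ : List G₁) (l₂ : List G₂) :
    ∃ (W : Type u) (_ : Group W) (β₁ : G₁ →* W) (β₂ : G₂ →* W), IsAmenable W ∧
      (∀ g, β₁ (i₁ g) = β₂ (i₂ g)) ∧ Sep i₁ β₁ l₁ ∧ Sep i₂ β₂ l₂ := by
  obtain ⟨A₁, _, m₁, π₁, hπ₁⟩ := sep_list r₁ (tl i₁ K₁ ρ₁ l₁)
  obtain ⟨A₂, _, m₂, π₂, hπ₂⟩ := sep_list r₂ (tl i₂ K₂ ρ₂ l₂)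
  -- the generator `z`
  obtain ⟨C, hCf, hCc⟩ := hv
  obtain ⟨⟨z, hz⟩, hzz⟩ := hCc.exists_generator
  have hord : ¬ IsOfFinOrder z := by
    intro h0
    have hzf' : IsOfFinOrder (⟨z, hz⟩ : C) := by
      obtain ⟨n, hn, hzn⟩ := isOfFinOrder_iff_pow_eq_one.1 h0
      exact isOfFinOrder_iff_pow_eq_one.2 ⟨n, hn, Subtype.ext hzn⟩
    have hCfin : Finite C := by
      have h1 : Subgroup.zpowers (⟨z, hz⟩ : C) = ⊤ := by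
        rw [eq_top_iff]
        intro x _
        exact hzz x
      have h2 : Finite (Subgroup.zpowers (⟨z, hz⟩ : C)) := (finite_zpowers.2 hzf').to_subtype
      rw [h1] at h2
      exact Finite.of_equiv _ Subgroup.topEquiv.toEquiv
    have : Finite G₀ := by
      have h1 : Finite (G₀ ⧸ C) := inferInstance
      exact Finite.of_equiv _ (Subgroup.groupEquivQuotientProdSubgroup (s := C)).symm
    exact not_finite G₀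
  have hzi : Function.Injective (zpowersHom G₀ z) := by
    intro a b hab
    have h1 : z ^ a.toAdd = z ^ b.toAdd := hab
    exact injective_zpow_iff_not_isOfFinOrder.2 hord h1
  have hzf : (zpowersHom G₀ z).range.FiniteIndex := by
    refine Subgroup.finiteIndex_of_le (H := C) ?_
    intro x hx
    obtain ⟨l, hl⟩ := Subgroup.mem_zpowers_iff.1 (hzz ⟨x, hx⟩)
    exact ⟨Multiplicative.ofAdd l, congrArg Subtype.val hl⟩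
  have hpow : ∀ g : G₀, ∃ m : ℕ, 0 < m ∧ ∃ l : ℤ, g ^ m = z ^ l := by
    intro g
    obtain ⟨m, hm, -, hgm⟩ := Subgroup.exists_pow_mem_of_index_ne_zero hCf.index_ne_zero g
    obtain ⟨l, hl⟩ := Subgroup.mem_zpowers_iff.1 (hzz ⟨g ^ m, hgm⟩)
    exact ⟨m, hm, l, (congrArg Subtype.val hl).symm⟩
  obtain ⟨E₁, _, p₁, B₁, hE₁, hB₁, hB₁c, q₁, s₁⟩ := single_va i₁ K₁ hK₁ ρ₁ hρ₁ hK₁f z hzi hzf
  obtain ⟨E₂, _, p₂, B₂, hE₂, hB₂, hB₂c, q₂, s₂⟩ := single_va i₂ K₂ hK₂ ρ₂ hρ₂ hK₂f z hzi hzf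
  obtain ⟨C₁, _, _, hc₁, n₁, t₁, φ₁, hC₁, ht₁, hφs₁, hφ₁⟩ := va_data' B₁ hB₁ hB₁c
  obtain ⟨C₂, _, _, hc₂, n₂, t₂, φ₂, hC₂, ht₂, hφs₂, hφ₂⟩ := va_data' B₂ hB₂ hB₂c
  have g₁ := pw_fi C₁ hc₁ t₁ ht₁
  have g₂ := pw_fi C₂ hc₂ t₂ ht₂
  obtain ⟨d₁, hd₁, -, hz₁⟩ := Subgroup.exists_pow_mem_of_index_ne_zero g₁.index_ne_zero (p₁ (i₁ z))
  obtain ⟨d₂, hd₂, -, hz₂⟩ := Subgroup.exists_pow_mem_of_index_ne_zero g₂.index_ne_zero (p₂ (i₂ z))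
  have hc1 : z ^ (d₁ * d₂) ≠ 1 := fun h0 =>
    hord (isOfFinOrder_iff_pow_eq_one.2 ⟨_, Nat.mul_pos hd₁ hd₂, h0⟩)
  have hcm₁ : p₁ (i₁ (z ^ (d₁ * d₂))) ∈ pw C₁ hc₁ t₁ := by
    rw [pow_mul, map_pow, map_pow, map_pow, map_pow]
    exact Subgroup.pow_mem _ hz₁ _
  have hcm₂ : p₂ (i₂ (z ^ (d₁ * d₂))) ∈ pw C₂ hc₂ t₂ := by
    rw [mul_comm d₁, pow_mul, map_pow, map_pow, map_pow, map_pow]
    exact Subgroup.pow_mem _ hz₂ _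
  have hcz : ∀ g : G₀, ∃ m : ℕ, 0 < m ∧ ∃ l : ℤ, g ^ m = (z ^ (d₁ * d₂)) ^ l := by
    intro g
    obtain ⟨m, hm, l, hl⟩ := hpow g
    refine ⟨m * (d₁ * d₂), Nat.mul_pos hm (Nat.mul_pos hd₁ hd₂), l, ?_⟩
    rw [pow_mul, hl, ← zpow_natCast, ← zpow_mul, mul_comm l, zpow_mul, zpow_natCast]
  generalize z ^ (d₁ * d₂) = c at hc1 hcm₁ hcm₂ hcz
  obtain ⟨N₁, _, _, h₁, f₁, k₁, w₁⟩ := single_pos i₁ p₁ q₁ K₁ C₁ hc₁ φ₁ ht₁ hφs₁ hφ₁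
    (fun g hg => s₁ g (hC₁ hg)) c hc1 hcm₁ hcz
  obtain ⟨N₂, _, _, h₂, f₂, k₂, w₂⟩ := single_pos i₂ p₂ q₂ K₂ C₂ hc₂ φ₂ ht₂ hφs₂ hφ₂
    (fun g hg => s₂ g (hC₂ hg)) c hc1 hcm₂ hcz
  have o₁ := orb_fin i₁ N₁
  have o₂ := orb_fin i₂ N₂
  obtain ⟨L, _, A, B, U, hL, hU, kA, kB⟩ := lab (am_prod (am_prod m₁ m₁) am_int)
    (am_prod (am_prod m₂ m₂) am_int) (al i₁ K₁ ρ₁ π₁ N₁ k₁ f₁) (al i₂ K₂ ρ₂ π₂ N₂ k₂ f₂)
    (MonoidHom.snd _ _) (MonoidHom.snd _ _)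
    (fun y : Orb i₁ N₁ => cj N₁ y.out ⟨i₁ c, (h₁ c).2 (Subgroup.mem_zpowers c)⟩)
    (fun y : Orb i₂ N₂ => cj N₂ y.out ⟨i₂ c, (h₂ c).2 (Subgroup.mem_zpowers c)⟩) w₁ w₂
  refine finish i₁ i₂ K₁ hK₁ ρ₁ hρ₁ K₂ hK₂ ρ₂ hρ₂ π₁ π₂ l₁ l₂ hπ₁ hπ₂ (Subgroup.zpowers c)
    N₁ N₂ h₁ h₂ k₁ k₂ f₁ f₂ hL A B U ?_ kA kB
  rintro n ⟨j, rfl⟩ y₁ y₂
  have e1 : (⟨i₁ (c ^ j), (h₁ _).2 ⟨j, rfl⟩⟩ : N₁) =
      ⟨i₁ c, (h₁ c).2 (Subgroup.mem_zpowers c)⟩ ^ j := Subtype.ext (map_zpow i₁ c j)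
  have e2 : (⟨i₂ (c ^ j), (h₂ _).2 ⟨j, rfl⟩⟩ : N₂) =
      ⟨i₂ c, (h₂ c).2 (Subgroup.mem_zpowers c)⟩ ^ j := Subtype.ext (map_zpow i₂ c j)
  show U y₁ y₂ * A y₂ (cj N₁ y₁.out ⟨i₁ (c ^ j), _⟩) * (U y₁ y₂)⁻¹ =
    B y₁ (cj N₂ y₂.out ⟨i₂ (c ^ j), _⟩)
  rw [e1, e2, map_zpow, map_zpow, map_zpow, map_zpow, ← hU, conj_zpow]

end finish

end Pool.Agent.X260.RA
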