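import Pool.Agent.X260.RA.Amen
import Pool.Agent.X260.VA.Cont

/-!
# Monomial permutations with values in a group, and induced homomorphisms
-/

set_option autoImplicit false
set_option linter.unusedSectionVars false

namespace Pool.Agent.X260.RA

open Pool.Agent.H883B Pool.Agent.X260.VA

/-- monomial permutations of `T × M` -/
@[ext] structure Mn (T M : Type*) where
  /-- the permutation -/
  p : Equiv.Perm T
  /-- the factors -/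
  f : T → M

namespace Mn

variable {T M : Type*} [Group M]

instance : Mul (Mn T M) := ⟨fun a b => ⟨a.p * b.p, fun t => a.f (b.p t) * b.f t⟩⟩
instance : One (Mn T M) := ⟨⟨1, fun _ => 1⟩⟩
instance : Inv (Mn T M) := ⟨fun a => ⟨a.p⁻¹, fun t => (a.f (a.p⁻¹ t))⁻¹⟩⟩

@[simp] theorem mul_p (a b : Mn T M) : (a * b).p = a.p * b.p := rfl
@[simp] theorem mul_f (a b : Mn T M) (t : T) : (a * b).f t = a.f (b.p t) * b.f t := rfl
@[simp] theorem one_p : (1 : Mn T M).p = 1 := rfl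
@[simp] theorem one_f (t : T) : (1 : Mn T M).f t = 1 := rfl
@[simp] theorem inv_p (a : Mn T M) : (a⁻¹).p = a.p⁻¹ := rfl
@[simp] theorem inv_f (a : Mn T M) (t : T) : (a⁻¹).f t = (a.f (a.p⁻¹ t))⁻¹ := rfl

instance : Group (Mn T M) := Group.ofLeftAxioms
  (by
    intro a b c
    apply Mn.ext
    · simp [mul_assoc]
    · funext t
      simp [mul_assoc])
  (by
    intro a
    apply Mn.ext
    · simp
    · funext t
      simp)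
  (by
    intro a
    apply Mn.ext
    · simp
    · funext t
      simp)

/-- the underlying permutation -/
def perm : Mn T M →* Equiv.Perm T where
  toFun := Mn.p
  map_one' := rfl
  map_mul' _ _ := rfl

/-- the factors on the kernel -/
def kf : (perm (T := T) (M := M)).ker →* (T → M) where
  toFun x := (x : Mn T M).f
  map_one' := rfl
  map_mul' x y := by
    have hy : (y : Mn T M).p = 1 := y.2
    funext t
    show (x : Mn T M).f ((y : Mn T M).p t) * (y : Mn T M).f t = _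
    rw [hy]
    rfl

theorem kf_inj : Function.Injective (kf (T := T) (M := M)) := by
  rintro ⟨x, hx⟩ ⟨y, hy⟩ h
  apply Subtype.ext
  apply Mn.ext
  · have hx : x.p = 1 := hx
    have hy : y.p = 1 := hy
    rw [hx, hy]
  · exact h

/-- diagonal elements -/
def diag : M →* Mn T M where
  toFun m := ⟨1, fun _ => m⟩
  map_one' := rfl
  map_mul' _ _ := rfl

end Mn

theorem am_mn {T M : Type*} [Group M] [Finite T] (h : IsAmenable M) : IsAmenable (Mn T M) :=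
  am_ext Mn.perm (am_inj Mn.kf Mn.kf_inj (am_pi h)) am_finite

section ind

variable {G X P T M : Type*} [Group G] [Group M] (N : Subgroup G) (s : X → G)
  (hs : Function.Bijective (fun p : X × N => s p.1 * (p.2 : G))) (ε : T ≃ X × P) (A : P → N →* M)

/-- the induced monomial representation -/
noncomputable def ind : G →* Mn T M where
  toFun g :=
    { p := ε.trans (((acPerm N s hs g).prodCongr (Equiv.refl P)).trans ε.symm)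
      f := fun t => A (ε t).2 (cc N s hs g (ε t).1) }
  map_one' := by
    apply Mn.ext
    · ext t
      show ε.symm (ac N s hs 1 (ε t).1, (ε t).2) = t
      rw [ac_one]
      exact ε.symm_apply_apply t
    · funext t
      show A (ε t).2 (cc N s hs 1 (ε t).1) = 1
      rw [cc_one, map_one]
  map_mul' g h := by
    apply Mn.ext
    · ext t
      show ε.symm (ac N s hs (g * h) (ε t).1, (ε t).2) =
        ε.symm (ac N s hs g (ε (ε.symm (ac N s hs h (ε t).1, (ε t).2))).1,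
          (ε (ε.symm (ac N s hs h (ε t).1, (ε t).2))).2)
      rw [Equiv.apply_symm_apply, (mul_uniq N s hs g h _).1]
    · funext t
      show A (ε t).2 (cc N s hs (g * h) (ε t).1) =
        A (ε (ε.symm (ac N s hs h (ε t).1, (ε t).2))).2
          (cc N s hs g (ε (ε.symm (ac N s hs h (ε t).1, (ε t).2))).1) *
          A (ε t).2 (cc N s hs h (ε t).1)
      rw [Equiv.apply_symm_apply, (mul_uniq N s hs g h _).2, map_mul]

theorem ind_p (g : G) (t : T) :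
    (ind N s hs ε A g).p t = ε.symm (ac N s hs g (ε t).1, (ε t).2) := rfl

theorem ind_f (g : G) (t : T) :
    (ind N s hs ε A g).f t = A (ε t).2 (cc N s hs g (ε t).1) := rfl

theorem mem_of_p [hN : N.Normal] [Nonempty P] [Nonempty X] (g : G)
    (h : (ind N s hs ε A g).p = 1) : g ∈ N := by
  obtain ⟨x⟩ := ‹Nonempty X›
  obtain ⟨p⟩ := ‹Nonempty P›
  have h1 : ε.symm (ac N s hs g (ε (ε.symm (x, p))).1, (ε (ε.symm (x, p))).2) = ε.symm (x, p) := by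
    rw [← ind_p N s hs ε A, h]
    rfl
  rw [Equiv.apply_symm_apply] at h1
  have h2 : ac N s hs g x = x := (Prod.mk.inj (ε.symm.injective h1)).1
  have h3 := ac_cc N s hs g x
  rw [h2] at h3
  have h4 : g = s x * (cc N s hs g x : G) * (s x)⁻¹ := by
    rw [← h3]
    group
  rw [h4]
  exact hN.conj_mem _ (cc N s hs g x).2 _

end ind

section two

universe u v w

variable {G₀ G₁ G₂ M : Type*} [Group G₀] [Group G₁] [Group G₂] [Group M]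
  (i₁ : G₀ →* G₁) (i₂ : G₀ →* G₂) (N₀ : Subgroup G₀) (N₁ : Subgroup G₁) (N₂ : Subgroup G₂)
  [hN₁ : N₁.Normal] [hN₂ : N₂.Normal]
  (h₁ : ∀ g, i₁ g ∈ N₁ ↔ g ∈ N₀) (h₂ : ∀ g, i₂ g ∈ N₂ ↔ g ∈ N₀)
  (A : Orb i₂ N₂ → N₁ →* M) (B : Orb i₁ N₁ → N₂ →* M) (U : Orb i₁ N₁ → Orb i₂ N₂ → M)

/-- the conjugating element -/
def uu : Mn (TT i₁ i₂ N₀ N₁ N₂) M := ⟨1, fun t => U t.2.1 t.2.2⟩

/-- the first representation -/
noncomputable def nu₁ : G₁ →* Mn (TT i₁ i₂ N₀ N₁ N₂) M :=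
  (MulAut.conj (uu i₁ i₂ N₀ N₁ N₂ U)).toMonoidHom.comp
    (ind N₁ (sec i₁ N₁ N₀) (sec_bij i₁ N₁ N₀ h₁) (ε₁ i₁ i₂ N₀ N₁ N₂) A)

/-- the second representation -/
noncomputable def nu₂ : G₂ →* Mn (TT i₁ i₂ N₀ N₁ N₂) M :=
  ind N₂ (sec i₂ N₂ N₀) (sec_bij i₂ N₂ N₀ h₂) (ε₂ i₁ i₂ N₀ N₁ N₂) B

theorem nu_agree
    (compat : ∀ (n : G₀) (hn : n ∈ N₀) (y₁ : Orb i₁ N₁) (y₂ : Orb i₂ N₂),
      U y₁ y₂ * A y₂ (cj N₁ y₁.out ⟨i₁ n, (h₁ n).2 hn⟩) * (U y₁ y₂)⁻¹ =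
        B y₁ (cj N₂ y₂.out ⟨i₂ n, (h₂ n).2 hn⟩))
    (g : G₀) : nu₁ i₁ i₂ N₀ N₁ N₂ h₁ A U (i₁ g) = nu₂ i₁ i₂ N₀ N₁ N₂ h₂ B (i₂ g) := by
  have key : ∀ t : TT i₁ i₂ N₀ N₁ N₂,
      (nu₁ i₁ i₂ N₀ N₁ N₂ h₁ A U (i₁ g)).p t = (nu₂ i₁ i₂ N₀ N₁ N₂ h₂ B (i₂ g)).p t ∧
      (nu₁ i₁ i₂ N₀ N₁ N₂ h₁ A U (i₁ g)).f t = (nu₂ i₁ i₂ N₀ N₁ N₂ h₂ B (i₂ g)).f t := by
    rintro ⟨q, y₁, y₂⟩
    set q' : G₀ ⧸ N₀ := QuotientGroup.mk (g * q.out) with hq'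
    have hn : (q'.out)⁻¹ * (g * q.out) ∈ N₀ := by
      rw [← QuotientGroup.eq, QuotientGroup.out_eq']
    have e1 := sec_act i₁ N₁ N₀ h₁ g q y₁ q' _ hn (by group)
    have e2 := sec_act i₂ N₂ N₀ h₂ g q y₂ q' _ hn (by group)
    constructor
    · show (ε₁ i₁ i₂ N₀ N₁ N₂).symm
        (ac N₁ (sec i₁ N₁ N₀) (sec_bij i₁ N₁ N₀ h₁) (i₁ g) (q, y₁), y₂) =
        (ε₂ i₁ i₂ N₀ N₁ N₂).symm
        (ac N₂ (sec i₂ N₂ N₀) (sec_bij i₂ N₂ N₀ h₂) (i₂ g) (q, y₂), y₁)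
      rw [e1.1, e2.1]
      rfl
    · show U (ac N₁ (sec i₁ N₁ N₀) (sec_bij i₁ N₁ N₀ h₁) (i₁ g) (q, y₁)).2 y₂ *
          A y₂ (cc N₁ (sec i₁ N₁ N₀) (sec_bij i₁ N₁ N₀ h₁) (i₁ g) (q, y₁)) * (U y₁ y₂)⁻¹ =
        B y₁ (cc N₂ (sec i₂ N₂ N₀) (sec_bij i₂ N₂ N₀ h₂) (i₂ g) (q, y₂))
      rw [e1.1, e1.2, e2.2]
      exact compat _ hn y₁ y₂
  apply Mn.ext
  · exact Equiv.ext fun t => (key t).1
  · funext t
    exact (key t).2

theorem sec_mem {G₀ G : Type*} [Group G₀] [Group G] (i : G₀ →* G) (N : Subgroup G)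
    (N₀ : Subgroup G₀) (K : Subgroup G) (hi : i.range ≤ K) (hN : N ≤ K) :
    sec i N N₀ (QuotientGroup.mk 1, DoubleCoset.mk i.range N 1) ∈ K := by
  obtain ⟨a, k, ha, hk, hg⟩ := DoubleCoset.mk_out_eq_mul i.range N 1
  refine K.mul_mem (hi ⟨_, rfl⟩) ?_
  show (DoubleCoset.mk i.range N 1 : Orb i N).out ∈ K
  rw [hg]
  exact K.mul_mem (K.mul_mem (hi ha) K.one_mem) (hN hk)

theorem nu₁_ker (K : Subgroup G₁) (hi : i₁.range ≤ K) (hNK : N₁ ≤ K) (g : G₁)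
    (h : nu₁ i₁ i₂ N₀ N₁ N₂ h₁ A U g = 1) :
    ∃ hg : g ∈ N₁, ∃ a ∈ K, ∃ (y : Orb i₂ N₂), A y (cj N₁ a ⟨g, hg⟩) = 1 := by
  have h' : ind N₁ (sec i₁ N₁ N₀) (sec_bij i₁ N₁ N₀ h₁) (ε₁ i₁ i₂ N₀ N₁ N₂) A g = 1 := by
    have h1 : MulAut.conj (uu i₁ i₂ N₀ N₁ N₂ U)
      (ind N₁ (sec i₁ N₁ N₀) (sec_bij i₁ N₁ N₀ h₁) (ε₁ i₁ i₂ N₀ N₁ N₂) A g) = 1 := h
    exact (MulEquiv.map_eq_one_iff _).1 h1
  have : Nonempty (Orb i₂ N₂) := ⟨DoubleCoset.mk i₂.range N₂ 1⟩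
  have : Nonempty ((G₀ ⧸ N₀) × Orb i₁ N₁) := ⟨(QuotientGroup.mk 1, DoubleCoset.mk i₁.range N₁ 1)⟩
  have hg := mem_of_p N₁ (sec i₁ N₁ N₀) (sec_bij i₁ N₁ N₀ h₁) (ε₁ i₁ i₂ N₀ N₁ N₂) A g
    (by rw [h']; rfl)
  let t₀ : TT i₁ i₂ N₀ N₁ N₂ :=
    (QuotientGroup.mk 1, DoubleCoset.mk i₁.range N₁ 1, DoubleCoset.mk i₂.range N₂ 1)
  refine ⟨hg, sec i₁ N₁ N₀ (t₀.1, t₀.2.1), sec_mem i₁ N₁ N₀ K hi hNK, t₀.2.2, ?_⟩
  have h2 : (ind N₁ (sec i₁ N₁ N₀) (sec_bij i₁ N₁ N₀ h₁) (ε₁ i₁ i₂ N₀ N₁ N₂) A g).f t₀ = 1 := by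
    rw [h']
    rfl
  have h3 : A t₀.2.2 (cc N₁ (sec i₁ N₁ N₀) (sec_bij i₁ N₁ N₀ h₁) g (t₀.1, t₀.2.1)) = 1 := h2
  rw [(ac_mem N₁ (sec i₁ N₁ N₀) (sec_bij i₁ N₁ N₀ h₁) g hg (t₀.1, t₀.2.1)).2] at h3
  exact h3

theorem nu₂_ker (K : Subgroup G₂) (hi : i₂.range ≤ K) (hNK : N₂ ≤ K) (g : G₂)
    (h : nu₂ i₁ i₂ N₀ N₁ N₂ h₂ B g = 1) :
    ∃ hg : g ∈ N₂, ∃ a ∈ K, ∃ (y : Orb i₁ N₁), B y (cj N₂ a ⟨g, hg⟩) = 1 := by
  have h' : ind N₂ (sec i₂ N₂ N₀) (sec_bij i₂ N₂ N₀ h₂) (ε₂ i₁ i₂ N₀ N₁ N₂) B g = 1 := h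
  have : Nonempty (Orb i₁ N₁) := ⟨DoubleCoset.mk i₁.range N₁ 1⟩
  have : Nonempty ((G₀ ⧸ N₀) × Orb i₂ N₂) := ⟨(QuotientGroup.mk 1, DoubleCoset.mk i₂.range N₂ 1)⟩
  have hg := mem_of_p N₂ (sec i₂ N₂ N₀) (sec_bij i₂ N₂ N₀ h₂) (ε₂ i₁ i₂ N₀ N₁ N₂) B g
    (by rw [h']; rfl)
  let t₀ : TT i₁ i₂ N₀ N₁ N₂ :=
    (QuotientGroup.mk 1, DoubleCoset.mk i₁.range N₁ 1, DoubleCoset.mk i₂.range N₂ 1)
  refine ⟨hg, sec i₂ N₂ N₀ (t₀.1, t₀.2.2), sec_mem i₂ N₂ N₀ K hi hNK, t₀.2.1, ?_⟩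
  have h2 : (ind N₂ (sec i₂ N₂ N₀) (sec_bij i₂ N₂ N₀ h₂) (ε₂ i₁ i₂ N₀ N₁ N₂) B g).f t₀ = 1 := by
    rw [h']
    rfl
  have h3 : B t₀.2.1 (cc N₂ (sec i₂ N₂ N₀) (sec_bij i₂ N₂ N₀ h₂) g (t₀.1, t₀.2.2)) = 1 := h2
  rw [(ac_mem N₂ (sec i₂ N₂ N₀) (sec_bij i₂ N₂ N₀ h₂) g hg (t₀.1, t₀.2.2)).2] at h3
  exact h3

end two

section coind

variable {G M : Type*} [Group G] [Group M] (K : Subgroup G) (f : K →* M)

theorem out_bij : Function.Bijective (fun p : (G ⧸ K) × K => p.1.out * (p.2 : G)) := by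
  constructor
  · rintro ⟨q, k⟩ ⟨q', k'⟩ h
    have h : q.out * (k : G) = q'.out * (k' : G) := h
    have hq : q = q' := by
      rw [← QuotientGroup.out_eq' q, ← QuotientGroup.out_eq' q', QuotientGroup.eq]
      have : (q.out)⁻¹ * q'.out = (k : G) * (k' : G)⁻¹ := by
        have h2 : q'.out = q.out * (k : G) * (k' : G)⁻¹ := by
          rw [h]
          group
        rw [h2]
        group
      rw [this]
      exact K.mul_mem k.2 (K.inv_mem k'.2)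
    subst hq
    have : k = k' := Subtype.ext (mul_left_cancel h)
    rw [this]
  · intro g
    obtain ⟨k, hk⟩ := QuotientGroup.mk_out_eq_mul K g
    refine ⟨(QuotientGroup.mk g, k⁻¹), ?_⟩
    show (QuotientGroup.mk g : G ⧸ K).out * ((k⁻¹ : K) : G) = g
    rw [hk]
    simp

/-- coinduction -/
theorem coind : ∃ β : G →* Mn (G ⧸ K) M,
    ∀ g, (β g).p (QuotientGroup.mk 1) = QuotientGroup.mk 1 →
      ∃ hg : g ∈ K, (β g).f (QuotientGroup.mk 1) = 1 → f ⟨g, hg⟩ = 1 := by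
  let s : G ⧸ K → G := fun q => q.out
  let ε : G ⧸ K ≃ (G ⧸ K) × Unit := (Equiv.prodPUnit _).symm
  refine ⟨ind K s (out_bij K) ε (fun _ => f), ?_⟩
  intro g hg
  set x₀ : G ⧸ K := QuotientGroup.mk 1 with hx₀
  have h1 : ac K s (out_bij K) g x₀ = x₀ := hg
  have h2 := ac_cc K s (out_bij K) g x₀
  rw [h1] at h2
  have hs : s x₀ ∈ K := by
    obtain ⟨k, hk⟩ := QuotientGroup.mk_out_eq_mul K (1 : G)
    show (QuotientGroup.mk 1 : G ⧸ K).out ∈ K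
    rw [hk, one_mul]
    exact k.2
  have h3 : g = s x₀ * (cc K s (out_bij K) g x₀ : G) * (s x₀)⁻¹ := by
    rw [← h2]
    group
  have hgK : g ∈ K := by
    rw [h3]
    exact K.mul_mem (K.mul_mem hs (cc K s (out_bij K) g x₀).2) (K.inv_mem hs)
  refine ⟨hgK, fun hf => ?_⟩
  have hf : f (cc K s (out_bij K) g x₀) = 1 := hf
  have h4 : (⟨g, hgK⟩ : K) = ⟨s x₀, hs⟩ * cc K s (out_bij K) g x₀ * ⟨s x₀, hs⟩⁻¹ :=
    Subtype.ext h3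
  rw [h4, map_mul, map_mul, hf, mul_one, map_inv, mul_inv_cancel]

end coind

end Pool.Agent.X260.RA
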